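import Pool.Agent.Lib.MP_19e277_an.Count

namespace Pool.Agent.MP_19e277_an

/-- A Hilbert space valued map serves boundedly many functions (`P > 2`). -/
lemma serve_count {𝕜 : Type*} [RCLike 𝕜] {E : Type*} [NormedAddCommGroup E]
    [InnerProductSpace 𝕜 E] {q k : ℕ} [Fact q.Prime] {P β c : ℝ} (hP : 2 < P) (hc : 0 < c)
    (hβ : 0 ≤ β) (v : ZMod q × ZMod q → E)
    (hB : ∀ y : ZMod q × ZMod q → ℝ, ‖∑ ω, (y ω : 𝕜) • v ω‖ ^ P ≤ β * ∑ ω, |y ω| ^ P)
    {s : ℕ} (hs : 0 < s) (F : Finset (Fin k → ZMod q)) (hF : F.card = s)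
    (hserve : ∀ f ∈ F, c * (q : ℝ) ^ (1 / P) ≤ ‖∑ a, v (a, pol f a)‖)
    (hq : (s : ℝ) ^ (P + 1) * k ≤ q) :
    (s : ℝ) ^ (P / 2 - 1) * c ^ P ≤ 2 * β := by
  classical
  have hP0 : 0 < P := by linarith
  have hq0 : (0 : ℝ) < q := by exact_mod_cast (Fact.out : q.Prime).pos
  have hs0 : (0 : ℝ) < s := by exact_mod_cast hs
  obtain ⟨ε, hε, hle⟩ := exists_signs (𝕜 := 𝕜) (ι := Unit) (Ω := Fin k → ZMod q)
    (E := fun _ => E) {()} (fun _ f => ∑ a, v (a, pol f a)) (P / 2) (by linarith) F (fun _ => 0)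
  rw [Finset.sum_singleton, Finset.sum_singleton] at hle
  simp only [norm_zero, zero_add, ne_eq, OfNat.ofNat_ne_zero, not_false_eq_true, zero_pow] at hle
  -- lower bound
  have h1 : ((s : ℝ) * (c * (q : ℝ) ^ (1 / P)) ^ 2) ^ (P / 2) ≤
      (∑ f ∈ F, ‖∑ a, v (a, pol f a)‖ ^ 2) ^ (P / 2) := by
    apply Real.rpow_le_rpow (by positivity) _ (by linarith)
    rw [← hF, ← nsmul_eq_mul, ← Finset.sum_const]
    apply Finset.sum_le_sum
    intro f hf
    exact pow_le_pow_left₀ (by positivity) (hserve f hf) 2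
  -- upper bound
  let y : ZMod q × ZMod q → ℝ := fun ω => ∑ f ∈ F, if pol f ω.1 = ω.2 then ε f else 0
  have h2 : ∑ f ∈ F, (ε f : 𝕜) • ∑ a, v (a, pol f a) = ∑ ω, (y ω : 𝕜) • v ω := by
    have h3 : ∀ f, (ε f : 𝕜) • ∑ a, v (a, pol f a) =
        ∑ ω : ZMod q × ZMod q, ((if pol f ω.1 = ω.2 then ε f else 0 : ℝ) : 𝕜) • v ω := by
      intro f
      rw [Fintype.sum_prod_type, Finset.smul_sum]
      apply Finset.sum_congr rfl
      intro a _
      rw [Finset.sum_eq_single (pol f a)]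
      · simp
      · intro b _ hb
        simp only
        rw [if_neg (fun h => hb h.symm), RCLike.ofReal_zero, zero_smul]
      · intro h; exact absurd (Finset.mem_univ _) h
    simp_rw [h3]
    rw [Finset.sum_comm]
    apply Finset.sum_congr rfl
    intro ω _
    rw [← Finset.sum_smul]
    congr 1
    simp only [y]
    push_cast
    rfl
  have h4 : ∀ ω, |y ω| ≤ cnt F ω := by
    intro ω
    refine (Finset.abs_sum_le_sum_abs _ _).trans ?_
    rw [cnt, Finset.card_filter]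
    push_cast
    apply Finset.sum_le_sum
    intro f _
    by_cases h : pol f ω.1 = ω.2
    · rw [if_pos h, if_pos h]
      rcases hε f with h' | h' <;> rw [h'] <;> simp
    · rw [if_neg h, if_neg h]; simp
  have h5 : ‖∑ ω, (y ω : 𝕜) • v ω‖ ^ P ≤ β * (2 * s * q) := by
    refine (hB y).trans (mul_le_mul_of_nonneg_left ?_ hβ)
    refine (Finset.sum_le_sum fun ω _ =>
      Real.rpow_le_rpow (abs_nonneg _) (h4 ω) hP0.le).trans ?_
    exact sum_cnt_rpow hP0 F hF hq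
  have h6 : (‖∑ f ∈ F, (ε f : 𝕜) • ∑ a, v (a, pol f a)‖ ^ 2) ^ (P / 2) =
      ‖∑ ω, (y ω : 𝕜) • v ω‖ ^ P := by
    rw [h2, ← Real.rpow_natCast, ← Real.rpow_mul (norm_nonneg _)]
    congr 1
    push_cast
    ring
  rw [h6] at hle
  have h7 : ((s : ℝ) * (c * (q : ℝ) ^ (1 / P)) ^ 2) ^ (P / 2) = (s : ℝ) ^ (P / 2) * c ^ P * q := by
    rw [Real.mul_rpow hs0.le (by positivity), ← Real.rpow_natCast (c * (q : ℝ) ^ (1 / P)),
      ← Real.rpow_mul (by positivity)]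
    have h8 : ((2 : ℕ) : ℝ) * (P / 2) = P := by push_cast; ring
    rw [h8, Real.mul_rpow hc.le (by positivity), ← Real.rpow_mul hq0.le,
      one_div_mul_cancel hP0.ne', Real.rpow_one]
    ring
  have h9 : (s : ℝ) ^ (P / 2) = s * (s : ℝ) ^ (P / 2 - 1) := by
    rw [Real.rpow_sub_one hs0.ne']
    field_simp
  have h10 : (s : ℝ) ^ (P / 2) * c ^ P * q ≤ β * (2 * s * q) := by
    rw [← h7]; exact h1.trans (hle.trans h5)
  rw [h9] at h10
  have h11 : (s * q : ℝ) * ((s : ℝ) ^ (P / 2 - 1) * c ^ P) ≤ (s * q : ℝ) * (2 * β) := by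
    linarith
  exact le_of_mul_le_mul_left h11 (by positivity)

lemma big_p_bound {𝕜 : Type*} [RCLike 𝕜] {ι : Type*} {E : ι → Type*}
    [∀ i, NormedAddCommGroup (E i)] [∀ i, InnerProductSpace 𝕜 (E i)]
    {q k : ℕ} [Fact q.Prime] {P β c : ℝ} (hP : 2 < P) (hc : 0 < c) (hβ : 0 ≤ β)
    (v : ∀ i, ZMod q × ZMod q → E i)
    (hB : ∀ (I : Finset ι) (y : ZMod q × ZMod q → ℝ),
      ∑ i ∈ I, ‖∑ ω, (y ω : 𝕜) • v i ω‖ ^ P ≤ β * ∑ ω, |y ω| ^ P)
    (hserve : ∀ f : Fin k → ZMod q, ∃ i, c * (q : ℝ) ^ (1 / P) ≤ ‖∑ a, v i (a, pol f a)‖)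
    {s : ℕ} (hs : 0 < s) (hs' : 2 * β < (s : ℝ) ^ (P / 2 - 1) * c ^ P)
    (hq : (s : ℝ) ^ (P + 1) * k ≤ q) :
    (q : ℝ) ^ k * (c ^ P * (q : ℝ) ^ (1 - P / 2)) ≤ s * (β * (q : ℝ) ^ 2) := by
  classical
  have hP0 : 0 < P := by linarith
  have hq0 : (0 : ℝ) < q := by exact_mod_cast (Fact.out : q.Prime).pos
  choose g hg using hserve
  let I : Finset ι := Finset.univ.image g
  -- each index serves few functions
  have hfib : ∀ i ∈ I, (Finset.univ.filter (fun f => g f = i)).card ≤ s := by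
    intro i _
    by_contra hcon
    push Not at hcon
    obtain ⟨F, hFsub, hF⟩ := Finset.exists_subset_card_eq hcon.le
    have h1 := serve_count (𝕜 := 𝕜) hP hc hβ (v i) (fun y => by
      have := hB {i} y
      rwa [Finset.sum_singleton] at this) hs F hF (fun f hf => by
        have h2 := (Finset.mem_filter.1 (hFsub hf)).2
        rw [← h2]
        exact hg f) hq
    linarith
  have hcard : (q : ℝ) ^ k ≤ I.card * s := by
    have h1 : (Finset.univ : Finset (Fin k → ZMod q)).card = q ^ k := by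
      rw [Finset.card_univ, Fintype.card_fun, ZMod.card, Fintype.card_fin]
    have h2 := Finset.card_le_mul_card_image_of_maps_to (f := g) (s := Finset.univ) (t := I)
      (fun f _ => Finset.mem_image_of_mem g (Finset.mem_univ f)) s hfib
    rw [h1] at h2
    have h3 : ((q ^ k : ℕ) : ℝ) ≤ ((s * I.card : ℕ) : ℝ) := by exact_mod_cast h2
    push_cast at h3
    linarith
  -- each serving index has large total mass
  have hmass : ∀ i ∈ I, c ^ P * (q : ℝ) ^ (1 - P / 2) ≤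
      (‖(0 : E i)‖ ^ 2 + ∑ ω, ‖v i ω‖ ^ 2) ^ (P / 2) := by
    intro i hi
    obtain ⟨f, _, rfl⟩ := Finset.mem_image.1 hi
    have h1 := hg f
    have h2 : ‖∑ a, v (g f) (a, pol f a)‖ ^ 2 ≤ q * ∑ ω, ‖v (g f) ω‖ ^ 2 := by
      have h3 : ‖∑ a, v (g f) (a, pol f a)‖ ^ 2 ≤ (∑ a : ZMod q, ‖v (g f) (a, pol f a)‖) ^ 2 :=
        pow_le_pow_left₀ (norm_nonneg _) (norm_sum_le _ _) 2
      have h4 := sq_sum_le_card_mul_sum_sq (s := (Finset.univ : Finset (ZMod q)))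
        (f := fun a => ‖v (g f) (a, pol f a)‖)
      rw [Finset.card_univ, ZMod.card] at h4
      have h5 : ∑ a : ZMod q, ‖v (g f) (a, pol f a)‖ ^ 2 ≤ ∑ ω, ‖v (g f) ω‖ ^ 2 := by
        rw [Fintype.sum_prod_type]
        apply Finset.sum_le_sum
        intro a _
        exact Finset.single_le_sum (f := fun b => ‖v (g f) (a, b)‖ ^ 2)
          (fun b _ => by positivity) (Finset.mem_univ (pol f a))
      exact h3.trans (h4.trans (mul_le_mul_of_nonneg_left h5 hq0.le))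
    have h6 : (c * (q : ℝ) ^ (1 / P)) ^ 2 ≤ q * ∑ ω, ‖v (g f) ω‖ ^ 2 :=
      (pow_le_pow_left₀ (by positivity) h1 2).trans h2
    have h7 : (c * (q : ℝ) ^ (1 / P)) ^ 2 / q ≤ ∑ ω, ‖v (g f) ω‖ ^ 2 := by
      rw [div_le_iff₀ hq0]; linarith
    have h8 : ((c * (q : ℝ) ^ (1 / P)) ^ 2 / q) ^ (P / 2) = c ^ P * (q : ℝ) ^ (1 - P / 2) := by
      rw [Real.div_rpow (by positivity) hq0.le, ← Real.rpow_natCast (c * (q : ℝ) ^ (1 / P)),
        ← Real.rpow_mul (by positivity)]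
      have h9 : ((2 : ℕ) : ℝ) * (P / 2) = P := by push_cast; ring
      rw [h9, Real.mul_rpow hc.le (by positivity), ← Real.rpow_mul hq0.le,
        one_div_mul_cancel hP0.ne', Real.rpow_sub hq0, mul_div_assoc]
    rw [← h8, norm_zero]
    apply Real.rpow_le_rpow (by positivity) _ (by linarith)
    simpa using h7
  obtain ⟨ε, hε, hle⟩ := exists_signs (𝕜 := 𝕜) I v (P / 2) (by linarith) Finset.univ
    (fun i => (0 : E i))
  have h1 : I.card * (c ^ P * (q : ℝ) ^ (1 - P / 2)) ≤ β * (q : ℝ) ^ 2 := by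
    rw [← nsmul_eq_mul, ← Finset.sum_const]
    refine (Finset.sum_le_sum hmass).trans (hle.trans ?_)
    have h2 : ∀ i ∈ I, (‖(0 : E i) + ∑ ω, (ε ω : 𝕜) • v i ω‖ ^ 2) ^ (P / 2) =
        ‖∑ ω, (ε ω : 𝕜) • v i ω‖ ^ P := by
      intro i _
      rw [zero_add, ← Real.rpow_natCast, ← Real.rpow_mul (norm_nonneg _)]
      congr 1
      push_cast
      ring
    rw [Finset.sum_congr rfl h2]
    refine (hB I ε).trans (le_of_eq ?_)
    have h3 : ∀ ω ∈ (Finset.univ : Finset (ZMod q × ZMod q)), |ε ω| ^ P = 1 := by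
      intro ω _
      rcases hε ω with h | h <;> rw [h] <;> simp
    rw [Finset.sum_congr rfl h3, Finset.sum_const, Finset.card_univ, Fintype.card_prod, ZMod.card]
    push_cast
    ring
  have h2 : 0 ≤ c ^ P * (q : ℝ) ^ (1 - P / 2) := by positivity
  calc (q : ℝ) ^ k * (c ^ P * (q : ℝ) ^ (1 - P / 2))
      ≤ (I.card * s) * (c ^ P * (q : ℝ) ^ (1 - P / 2)) := mul_le_mul_of_nonneg_right hcard h2
    _ = s * (I.card * (c ^ P * (q : ℝ) ^ (1 - P / 2))) := by ring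
    _ ≤ s * (β * (q : ℝ) ^ 2) := mul_le_mul_of_nonneg_left h1 (Nat.cast_nonneg s)

lemma pol_two {q : ℕ} (c : Fin 2 → ZMod q) (a : ZMod q) : pol c a = c 0 + c 1 * a := by
  simp [pol, Fin.sum_univ_two]

lemma bij_pair {q : ℕ} [Fact q.Prime] {a a' : ZMod q} (h : a ≠ a') :
    Function.Bijective (fun c : Fin 2 → ZMod q => (pol c a, pol c a')) := by
  rw [Fintype.bijective_iff_injective_and_card]
  refine ⟨?_, by simp [sq]⟩
  intro c c' hcc
  simp only [pol_two, Prod.mk.injEq] at hcc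
  obtain ⟨h1, h2⟩ := hcc
  have h3 : (c 1 - c' 1) * (a - a') = 0 := by linear_combination h1 - h2
  rcases mul_eq_zero.1 h3 with h4 | h4
  · have h5 : c 1 = c' 1 := sub_eq_zero.1 h4
    have h6 : c 0 = c' 0 := by
      rw [h5] at h1
      exact add_right_cancel h1
    funext i
    fin_cases i
    · exact h6
    · exact h5
  · exact absurd (sub_eq_zero.1 h4) h

lemma bij_diag {q : ℕ} [Fact q.Prime] (a : ZMod q) :
    Function.Bijective (fun c : Fin 2 → ZMod q => (pol c a, c 1)) := by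
  rw [Fintype.bijective_iff_injective_and_card]
  refine ⟨?_, by simp [sq]⟩
  intro c c' hcc
  simp only [pol_two, Prod.mk.injEq] at hcc
  obtain ⟨h1, h2⟩ := hcc
  have h6 : c 0 = c' 0 := by
    rw [h2] at h1
    exact add_right_cancel h1
  funext i
  fin_cases i
  · exact h6
  · exact h2

lemma norm_sum_sq {𝕜 : Type*} [RCLike 𝕜] {E ι : Type*} [NormedAddCommGroup E]
    [InnerProductSpace 𝕜 E] [Fintype ι] (x : ι → E) :
    ‖∑ i, x i‖ ^ 2 = ∑ i, ∑ j, RCLike.re (inner 𝕜 (x i) (x j)) := by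
  rw [← inner_self_eq_norm_sq (𝕜 := 𝕜), sum_inner, map_sum]
  apply Finset.sum_congr rfl
  intro i _
  rw [inner_sum, map_sum]

/-- Averaging over the lines `a ↦ c_0 + c_1 a`. -/
lemma line_sum {𝕜 : Type*} [RCLike 𝕜] {E : Type*} [NormedAddCommGroup E]
    [InnerProductSpace 𝕜 E] {q : ℕ} [Fact q.Prime] (v : ZMod q × ZMod q → E) :
    ∑ c : Fin 2 → ZMod q, ‖∑ a, v (a, pol c a)‖ ^ 2 ≤
      q * ∑ ω, ‖v ω‖ ^ 2 + ‖∑ ω, v ω‖ ^ 2 := by
  classical
  let V : ZMod q → E := fun a => ∑ b, v (a, b)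
  have h1 : ∀ c : Fin 2 → ZMod q, ‖∑ a, v (a, pol c a)‖ ^ 2 =
      ∑ a, ∑ a', RCLike.re (inner 𝕜 (v (a, pol c a)) (v (a', pol c a'))) :=
    fun c => norm_sum_sq _
  have h2 : ‖∑ ω, v ω‖ ^ 2 = ∑ a, ∑ a', RCLike.re (inner 𝕜 (V a) (V a')) := by
    rw [Fintype.sum_prod_type]
    exact norm_sum_sq V
  have h3 : ∀ a a' : ZMod q,
      ∑ c : Fin 2 → ZMod q, RCLike.re (inner 𝕜 (v (a, pol c a)) (v (a', pol c a'))) ≤
      (if a = a' then (q : ℝ) * ∑ b, ‖v (a, b)‖ ^ 2 else 0) +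
        RCLike.re (inner 𝕜 (V a) (V a')) := by
    intro a a'
    by_cases h : a = a'
    · subst h
      rw [if_pos rfl]
      have h4 : 0 ≤ RCLike.re (inner 𝕜 (V a) (V a)) := inner_self_nonneg
      have h5 : ∑ c : Fin 2 → ZMod q, RCLike.re (inner 𝕜 (v (a, pol c a)) (v (a, pol c a))) =
          (q : ℝ) * ∑ b, ‖v (a, b)‖ ^ 2 := by
        have h6 := (bij_diag a).sum_comp
          (fun y : ZMod q × ZMod q => ‖v (a, y.1)‖ ^ 2)
        simp_rw [inner_self_eq_norm_sq]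
        rw [h6, Fintype.sum_prod_type]
        simp only [Finset.sum_const, Finset.card_univ, ZMod.card, nsmul_eq_mul]
        rw [← Finset.mul_sum]
      linarith
    · rw [if_neg h, zero_add]
      have h6 := (bij_pair h).sum_comp
        (fun y : ZMod q × ZMod q => RCLike.re (inner 𝕜 (v (a, y.1)) (v (a', y.2))))
      simp only at h6
      rw [h6, Fintype.sum_prod_type]
      apply le_of_eq
      simp only [V]
      rw [sum_inner, map_sum]
      apply Finset.sum_congr rfl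
      intro b _
      rw [inner_sum, map_sum]
  calc ∑ c : Fin 2 → ZMod q, ‖∑ a, v (a, pol c a)‖ ^ 2
      = ∑ c : Fin 2 → ZMod q, ∑ a, ∑ a',
          RCLike.re (inner 𝕜 (v (a, pol c a)) (v (a', pol c a'))) :=
        Finset.sum_congr rfl fun c _ => h1 c
    _ = ∑ a, ∑ a', ∑ c : Fin 2 → ZMod q,
          RCLike.re (inner 𝕜 (v (a, pol c a)) (v (a', pol c a'))) := by
        rw [Finset.sum_comm]
        apply Finset.sum_congr rfl
        intro a _
        rw [Finset.sum_comm]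
    _ ≤ ∑ a, ∑ a', ((if a = a' then (q : ℝ) * ∑ b, ‖v (a, b)‖ ^ 2 else 0) +
        RCLike.re (inner 𝕜 (V a) (V a'))) :=
        Finset.sum_le_sum fun a _ => Finset.sum_le_sum fun a' _ => h3 a a'
    _ = q * ∑ ω, ‖v ω‖ ^ 2 + ‖∑ ω, v ω‖ ^ 2 := by
        rw [h2]
        simp_rw [Finset.sum_add_distrib]
        congr 1
        rw [Fintype.sum_prod_type, Finset.mul_sum]
        apply Finset.sum_congr rfl
        intro a _
        rw [Finset.sum_ite_eq, if_pos (Finset.mem_univ a)]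

lemma sum_rpow_le_rpow_sum {ι : Type*} (I : Finset ι) (t : ι → ℝ) (ht : ∀ i, 0 ≤ t i) {r : ℝ}
    (hr : 1 ≤ r) : ∑ i ∈ I, t i ^ r ≤ (∑ i ∈ I, t i) ^ r := by
  classical
  induction I using Finset.induction_on with
  | empty => simp [Real.zero_rpow (by linarith : r ≠ 0)]
  | insert a I ha ih =>
    rw [Finset.sum_insert ha, Finset.sum_insert ha]
    have h1 : 0 ≤ ∑ i ∈ I, t i := Finset.sum_nonneg fun i _ => ht i
    have h2 := NNReal.add_rpow_le_rpow_add (⟨t a, ht a⟩ : NNReal) ⟨∑ i ∈ I, t i, h1⟩ hr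
    have h3 : t a ^ r + (∑ i ∈ I, t i) ^ r ≤ (t a + ∑ i ∈ I, t i) ^ r := by exact_mod_cast h2
    linarith

lemma sum_sq_le_of_rpow {ι : Type*} (I : Finset ι) (t : ι → ℝ) (ht : ∀ i, 0 ≤ t i) {P C : ℝ}
    (hP0 : 0 < P) (hP : P ≤ 2) (h : ∑ i ∈ I, t i ^ P ≤ C) :
    ∑ i ∈ I, t i ^ 2 ≤ C ^ (2 / P) := by
  have h1 := sum_rpow_le_rpow_sum I (fun i => t i ^ P) (fun i => Real.rpow_nonneg (ht i) P)
    (r := 2 / P) (by rw [le_div_iff₀ hP0]; linarith)
  have h2 : ∀ i ∈ I, (t i ^ P) ^ (2 / P) = t i ^ 2 := by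
    intro i _
    rw [← Real.rpow_mul (ht i), mul_div_cancel₀ _ hP0.ne', ← Real.rpow_natCast]
    norm_num
  rw [Finset.sum_congr rfl h2] at h1
  refine h1.trans ?_
  exact Real.rpow_le_rpow (Finset.sum_nonneg fun i _ => Real.rpow_nonneg (ht i) P) h
    (by positivity)

lemma small_p_bound {𝕜 : Type*} [RCLike 𝕜] {ι : Type*} {E : ι → Type*}
    [∀ i, NormedAddCommGroup (E i)] [∀ i, InnerProductSpace 𝕜 (E i)]
    {q : ℕ} [Fact q.Prime] {P β c : ℝ} (hP0 : 0 < P) (hP : P ≤ 2) (hc : 0 < c)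
    (v : ∀ i, ZMod q × ZMod q → E i)
    (hB : ∀ (I : Finset ι) (y : ZMod q × ZMod q → ℝ),
      ∑ i ∈ I, ‖∑ ω, (y ω : 𝕜) • v i ω‖ ^ P ≤ β * ∑ ω, |y ω| ^ P)
    (hserve : ∀ f : Fin 2 → ZMod q, ∃ i, c * (q : ℝ) ^ (1 / P) ≤ ‖∑ a, v i (a, pol f a)‖) :
    (q : ℝ) ^ 2 * (c * (q : ℝ) ^ (1 / P)) ^ 2 ≤
      q * ((q : ℝ) ^ 2 * β ^ (2 / P)) + (β * (q : ℝ) ^ 2) ^ (2 / P) := by
  classical
  have hq0 : (0 : ℝ) < q := by exact_mod_cast (Fact.out : q.Prime).pos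
  choose g hg using hserve
  let I : Finset ι := Finset.univ.image g
  have h1 : (q : ℝ) ^ 2 * (c * (q : ℝ) ^ (1 / P)) ^ 2 ≤
      ∑ f : Fin 2 → ZMod q, ∑ i ∈ I, ‖∑ a, v i (a, pol f a)‖ ^ 2 := by
    have h2 : ∀ f : Fin 2 → ZMod q, (c * (q : ℝ) ^ (1 / P)) ^ 2 ≤
        ∑ i ∈ I, ‖∑ a, v i (a, pol f a)‖ ^ 2 := by
      intro f
      refine (pow_le_pow_left₀ (by positivity) (hg f) 2).trans ?_
      exact Finset.single_le_sum (f := fun i => ‖∑ a, v i (a, pol f a)‖ ^ 2)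
        (fun i _ => by positivity) (Finset.mem_image_of_mem g (Finset.mem_univ f))
    refine le_trans (le_of_eq ?_) (Finset.sum_le_sum fun f _ => h2 f)
    rw [Finset.sum_const, Finset.card_univ, Fintype.card_fun, ZMod.card, Fintype.card_fin,
      nsmul_eq_mul]
    push_cast
    ring
  have h3 : ∀ ω : ZMod q × ZMod q, ∑ i ∈ I, ‖v i ω‖ ^ 2 ≤ β ^ (2 / P) := by
    intro ω
    apply sum_sq_le_of_rpow I (fun i => ‖v i ω‖) (fun i => norm_nonneg _) hP0 hP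
    have h4 := hB I (Pi.single ω 1)
    have h5 : ∀ i, ∑ ω', ((Pi.single ω (1 : ℝ) : ZMod q × ZMod q → ℝ) ω' : 𝕜) • v i ω' = v i ω := by
      intro i
      rw [Finset.sum_eq_single ω]
      · simp
      · intro b _ hb
        simp [Pi.single_eq_of_ne hb]
      · intro h; exact absurd (Finset.mem_univ ω) h
    have h6 : ∑ ω' : ZMod q × ZMod q, |(Pi.single ω (1 : ℝ) : ZMod q × ZMod q → ℝ) ω'| ^ P = 1 := by
      rw [Finset.sum_eq_single ω]
      · simp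
      · intro b _ hb
        simp [Pi.single_eq_of_ne hb, Real.zero_rpow hP0.ne']
      · intro h; exact absurd (Finset.mem_univ ω) h
    rw [h6, mul_one] at h4
    simpa only [h5] using h4
  have h7 : ∑ i ∈ I, ‖∑ ω, v i ω‖ ^ 2 ≤ (β * (q : ℝ) ^ 2) ^ (2 / P) := by
    apply sum_sq_le_of_rpow I (fun i => ‖∑ ω, v i ω‖) (fun i => norm_nonneg _) hP0 hP
    have h4 := hB I (fun _ => 1)
    simp only [RCLike.ofReal_one, one_smul, abs_one, Real.one_rpow, Finset.sum_const,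
      Finset.card_univ, Fintype.card_prod, ZMod.card, nsmul_eq_mul, mul_one] at h4
    refine h4.trans (le_of_eq ?_)
    push_cast
    ring
  calc (q : ℝ) ^ 2 * (c * (q : ℝ) ^ (1 / P)) ^ 2
      ≤ ∑ f : Fin 2 → ZMod q, ∑ i ∈ I, ‖∑ a, v i (a, pol f a)‖ ^ 2 := h1
    _ = ∑ i ∈ I, ∑ f : Fin 2 → ZMod q, ‖∑ a, v i (a, pol f a)‖ ^ 2 := Finset.sum_comm
    _ ≤ ∑ i ∈ I, (q * ∑ ω, ‖v i ω‖ ^ 2 + ‖∑ ω, v i ω‖ ^ 2) :=
        Finset.sum_le_sum fun i _ => line_sum (𝕜 := 𝕜) (v i)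
    _ = q * (∑ ω, ∑ i ∈ I, ‖v i ω‖ ^ 2) + ∑ i ∈ I, ‖∑ ω, v i ω‖ ^ 2 := by
        rw [Finset.sum_add_distrib, ← Finset.mul_sum, Finset.sum_comm]
    _ ≤ q * ((q : ℝ) ^ 2 * β ^ (2 / P)) + (β * (q : ℝ) ^ 2) ^ (2 / P) := by
        apply add_le_add _ h7
        apply mul_le_mul_of_nonneg_left _ hq0.le
        refine (Finset.sum_le_sum fun ω _ => h3 ω).trans (le_of_eq ?_)
        rw [Finset.sum_const, Finset.card_univ, Fintype.card_prod, ZMod.card, nsmul_eq_mul]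
        push_cast
        ring

end Pool.Agent.MP_19e277_an
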