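import Pool.Agent.Lib.MP_19e277_an.Flat
import Pool.Agent.Lib.MP_19e277_an.Bounds

open scoped ENNReal NNReal
open Filter Topology

namespace Pool.Agent.MP_19e277_an

universe u v w

section coords

variable {𝕜 : Type u} [RCLike 𝕜] {p : ℝ≥0∞}

/-- The `n`-th coordinate. -/
def EllP.val (x : EllP 𝕜 p) (n : ℕ) : 𝕜 := (show lp (fun _ : ℕ => 𝕜) p from x) n

@[simp] lemma EllP.val_add [Fact (1 ≤ p)] (x y : EllP 𝕜 p) (n : ℕ) :
    (x + y).val n = x.val n + y.val n := rfl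

@[simp] lemma EllP.val_smul [Fact (1 ≤ p)] (c : 𝕜) (x : EllP 𝕜 p) (n : ℕ) :
    (c • x).val n = c * x.val n := rfl

lemma EllP.summable [Fact (1 ≤ p)] (hp : p ≠ ∞) (x : EllP 𝕜 p) :
    Summable fun n => ‖x.val n‖ ^ p.toReal :=
  (lp.memℓp (show lp (fun _ : ℕ => 𝕜) p from x)).summable (toReal_pos' hp)

lemma EllP.sum_le [Fact (1 ≤ p)] (hp : p ≠ ∞) (x : EllP 𝕜 p) (s : Finset ℕ) :
    ∑ n ∈ s, ‖x.val n‖ ^ p.toReal ≤ ‖x‖ ^ p.toReal :=
  lp.sum_rpow_le_norm_rpow (toReal_pos' hp) (show lp (fun _ : ℕ => 𝕜) p from x) s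

/-- The vector `∑_ω y_ω e_{φ(ω)}`. -/
noncomputable def vec [Fact (1 ≤ p)] {Ω : Type*} [Fintype Ω] (φ : Ω → ℕ) (y : Ω → 𝕜) : EllP 𝕜 p :=
  ∑ ω, y ω • (show EllP 𝕜 p from lp.single p (φ ω) (1 : 𝕜))

lemma norm_vec [Fact (1 ≤ p)] (hp : p ≠ ∞) {Ω : Type*} [Fintype Ω] {φ : Ω → ℕ}
    (hφ : Function.Injective φ) (y : Ω → 𝕜) :
    ‖vec (p := p) φ y‖ ^ p.toReal = ∑ ω, ‖y ω‖ ^ p.toReal := by
  classical
  let f : ℕ → 𝕜 := Function.extend φ y 0
  have hf : ∀ ω, f (φ ω) = y ω := fun ω => hφ.extend_apply y 0 ω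
  have h1 := lp.norm_sum_single (E := fun _ : ℕ => 𝕜) (p := p) (toReal_pos' hp) f
    (Finset.univ.image φ)
  rw [Finset.sum_image (fun a _ b _ h => hφ h), Finset.sum_image (fun a _ b _ h => hφ h)] at h1
  have h2 : (vec (p := p) φ y) = (show EllP 𝕜 p from ∑ ω, lp.single p (φ ω) (f (φ ω))) := by
    unfold vec
    change _ = (∑ ω, (show EllP 𝕜 p from lp.single p (φ ω) (f (φ ω))) : EllP 𝕜 p)
    apply Finset.sum_congr rfl
    intro ω _
    rw [hf]
    change y ω • (lp.single p (φ ω) (1 : 𝕜) : lp (fun _ : ℕ => 𝕜) p) = lp.single p (φ ω) (y ω)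
    rw [← lp.single_smul, smul_eq_mul, mul_one]
  rw [h2]
  refine h1.trans ?_
  exact Finset.sum_congr rfl fun ω _ => by rw [hf]

lemma map_vec [Fact (1 ≤ p)] {Ω F : Type*} [Fintype Ω] [AddCommMonoid F] [Module 𝕜 F]
    (B : EllP 𝕜 p →ₗ[𝕜] F) (φ : Ω → ℕ) (y : Ω → 𝕜) :
    B (vec φ y) = ∑ ω, y ω • B (show EllP 𝕜 p from lp.single p (φ ω) (1 : 𝕜)) := by
  unfold vec
  rw [map_sum]
  exact Finset.sum_congr rfl fun ω _ => by rw [map_smul]

lemma vec_val [Fact (1 ≤ p)] {Ω : Type*} [Fintype Ω] {φ : Ω → ℕ}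
    (hφ : Function.Injective φ) (y : Ω → 𝕜) (ω : Ω) : (vec (p := p) φ y).val (φ ω) = y ω := by
  classical
  let L : EllP 𝕜 p →ₗ[𝕜] 𝕜 :=
    { toFun := fun x => x.val (φ ω), map_add' := fun _ _ => rfl, map_smul' := fun _ _ => rfl }
  change L (vec φ y) = y ω
  rw [map_vec, Finset.sum_eq_single ω]
  · change y ω • ((lp.single p (φ ω) (1 : 𝕜) : lp (fun _ : ℕ => 𝕜) p) (φ ω)) = y ω
    rw [lp.single_apply_self, smul_eq_mul, mul_one]
  · intro b _ hb
    change y b • ((lp.single p (φ b) (1 : 𝕜) : lp (fun _ : ℕ => 𝕜) p) (φ ω)) = 0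
    rw [lp.single_apply_ne _ _ _ (fun h => hb (hφ h).symm), smul_zero]
  · intro h; exact absurd (Finset.mem_univ ω) h

end coords

/-- The operator `x ↦ (φ_i(x))_i` into `c_0(ι)`. -/
noncomputable def toCZero {𝕜 : Type u} [RCLike 𝕜] {X : Type w} [NormedAddCommGroup X]
    [NormedSpace 𝕜 X] {ι : Type v} [TopologicalSpace ι] [DiscreteTopology ι]
    (φ : ι → X →ₗ[𝕜] 𝕜) (C : ℝ) (hC : 0 ≤ C)
    (hb : ∀ x i, ‖φ i x‖ ≤ C * ‖x‖) (ht : ∀ x, Tendsto (fun i => φ i x) cofinite (𝓝 0)) :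
    X →L[𝕜] CZero 𝕜 ι :=
  LinearMap.mkContinuous
    { toFun := fun x => CZero.mk (fun i => φ i x) (ht x)
      map_add' := fun x y => CZero.ext' fun i => map_add (φ i) x y
      map_smul' := fun c x => CZero.ext' fun i => map_smul (φ i) c x } C
    (fun x => CZero.norm_le _ (mul_nonneg hC (norm_nonneg x)) (hb x))

lemma toCZero_val {𝕜 : Type u} [RCLike 𝕜] {X : Type w} [NormedAddCommGroup X]
    [NormedSpace 𝕜 X] {ι : Type v} [TopologicalSpace ι] [DiscreteTopology ι]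
    (φ : ι → X →ₗ[𝕜] 𝕜) (C : ℝ) (hC : 0 ≤ C)
    (hb : ∀ x i, ‖φ i x‖ ≤ C * ‖x‖) (ht : ∀ x, Tendsto (fun i => φ i x) cofinite (𝓝 0))
    (x : X) (i : ι) : (toCZero φ C hC hb ht x).val i = φ i x := rfl

/-- `Nat.Primes` elements are prime. -/
instance fact_primes (q : Nat.Primes) : Fact (q : ℕ).Prime := ⟨q.2⟩

/-- Points of the affine planes over all prime fields. -/
abbrev Pts : Type := Σ q : Nat.Primes, ZMod (q : ℕ) × ZMod (q : ℕ)

/-- Polynomial functions with `k` coefficients over all prime fields. -/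
abbrev Fns (k : ℕ) : Type := Σ q : Nat.Primes, (Fin k → ZMod (q : ℕ))

instance infinite_primes : Infinite Nat.Primes := Nat.Primes.infinite

lemma exists_equiv_pts : Nonempty (Pts ≃ ℕ) := by
  have : Infinite Pts := Infinite.of_injective (fun q : Nat.Primes => (⟨q, 0⟩ : Pts)) (by
    intro a b h; exact congrArg Sigma.fst h)
  have : Countable Pts := inferInstance
  exact nonempty_equiv_of_countable

lemma exists_equiv_fns (k : ℕ) : Nonempty (Fns k ≃ ℕ) := by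
  have : Infinite (Fns k) := Infinite.of_injective (fun q : Nat.Primes => (⟨q, 0⟩ : Fns k)) (by
    intro a b h; exact congrArg Sigma.fst h)
  have : Countable (Fns k) := inferInstance
  exact nonempty_equiv_of_countable

/-- The graph of the polynomial `j`, as a set of points. -/
def gr {k : ℕ} (j : Fns k) : Finset Pts :=
  Finset.univ.map ⟨fun a : ZMod (j.1 : ℕ) => (⟨j.1, (a, pol j.2 a)⟩ : Pts), by
    intro a b h
    have h1 := Sigma.mk.inj_iff.1 h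
    exact (Prod.mk_inj.1 (eq_of_heq h1.2)).1⟩

lemma card_gr {k : ℕ} (j : Fns k) : (gr j).card = (j.1 : ℕ) := by
  rw [gr, Finset.card_map, Finset.card_univ, ZMod.card]

lemma mem_gr {k : ℕ} (j : Fns k) (ω : Pts) :
    ω ∈ gr j ↔ ∃ a : ZMod (j.1 : ℕ), (⟨j.1, (a, pol j.2 a)⟩ : Pts) = ω := by
  simp [gr]

lemma card_gr_inter [DecidableEq Pts] {k : ℕ} {j j' : Fns k} (h : j ≠ j') :
    (gr j ∩ gr j').card ≤ k := by
  obtain ⟨q, c⟩ := j
  obtain ⟨q', c'⟩ := j'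
  by_cases hq : q = q'
  · subst hq
    have hc : c ≠ c' := fun hc => h (by rw [hc])
    refine le_trans ?_ (card_agree hc)
    refine Finset.card_le_card_of_surjOn (fun a => (⟨q, (a, pol c a)⟩ : Pts)) ?_
    intro ω hω
    rw [Finset.mem_coe, Finset.mem_inter, mem_gr, mem_gr] at hω
    obtain ⟨⟨a, rfl⟩, ⟨b, hb⟩⟩ := hω
    have h1 := eq_of_heq (Sigma.mk.inj_iff.1 hb).2
    have h2 := Prod.mk_inj.1 h1
    have h3 : b = a := h2.1
    have h4 : pol c' b = pol c a := h2.2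
    refine ⟨a, ?_, rfl⟩
    rw [Finset.mem_coe, Finset.mem_filter]
    refine ⟨Finset.mem_univ a, ?_⟩
    rw [← h4, h3]
  · have : gr (⟨q, c⟩ : Fns k) ∩ gr ⟨q', c'⟩ = ∅ := by
      apply Finset.eq_empty_of_forall_notMem
      intro ω hω
      rw [Finset.mem_inter, mem_gr, mem_gr] at hω
      obtain ⟨⟨a, rfl⟩, ⟨b, hb⟩⟩ := hω
      exact hq (congrArg Sigma.fst hb).symm
    rw [this]
    simp

end Pool.Agent.MP_19e277_an
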