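import Mathlib

open Polynomial

namespace Pool.Agent.MP_19e277_an

/-- `f_c(a) = ∑_{l<k} c_l a^l`. -/
def pol {q k : ℕ} (c : Fin k → ZMod q) (a : ZMod q) : ZMod q := ∑ l : Fin k, c l * a ^ (l : ℕ)

lemma card_agree {q k : ℕ} [Fact q.Prime] {c c' : Fin k → ZMod q} (h : c ≠ c') :
    (Finset.univ.filter (fun a : ZMod q => pol c a = pol c' a)).card ≤ k := by
  classical
  let P : (ZMod q)[X] := ∑ l : Fin k, C (c l - c' l) * X ^ (l : ℕ)
  have hcoeff : ∀ l : Fin k, P.coeff l = c l - c' l := by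
    intro l
    simp only [P, Polynomial.finsetSum_coeff, coeff_C_mul, coeff_X_pow]
    rw [Finset.sum_eq_single l]
    · simp
    · intro b _ hb
      rw [if_neg (fun h => hb (Fin.ext h.symm)), mul_zero]
    · intro h; exact absurd (Finset.mem_univ l) h
  have hP : P ≠ 0 := by
    intro h0
    apply h
    funext l
    have := hcoeff l
    rw [h0, coeff_zero] at this
    exact (sub_eq_zero.1 this.symm)
  have hdeg : P.natDegree ≤ k := by
    apply Polynomial.natDegree_sum_le_of_forall_le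
    intro l _
    exact (natDegree_C_mul_X_pow_le _ _).trans l.2.le
  have heval : ∀ a, P.eval a = pol c a - pol c' a := by
    intro a
    simp only [P, pol, eval_finsetSum, eval_mul, eval_C, eval_pow, eval_X]
    rw [← Finset.sum_sub_distrib]
    exact Finset.sum_congr rfl fun l _ => by ring
  refine le_trans ?_ hdeg
  refine le_trans (Finset.card_le_card (t := P.roots.toFinset) ?_) ?_
  · intro a ha
    rw [Multiset.mem_toFinset, mem_roots hP, IsRoot.def, heval, sub_eq_zero]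
    exact (Finset.mem_filter.1 ha).2
  · exact (Multiset.toFinset_card_le _).trans (card_roots' P)

lemma rpow_le_quad {P : ℝ} {n s : ℕ} (hP : 0 < P) (hn : n ≤ s) :
    (n : ℝ) ^ P ≤ n + (s : ℝ) ^ P * ((n : ℝ) ^ 2 - n) := by
  rcases Nat.lt_or_ge n 2 with h | h
  · interval_cases n
    · simp [Real.zero_rpow hP.ne']
    · simp
  · have h1 : (n : ℝ) ^ P ≤ (s : ℝ) ^ P :=
      Real.rpow_le_rpow (Nat.cast_nonneg n) (Nat.cast_le.2 hn) hP.le
    have h2 : (2 : ℝ) ≤ n := by exact_mod_cast h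
    have h3 : (0 : ℝ) ≤ (s : ℝ) ^ P := Real.rpow_nonneg (Nat.cast_nonneg s) P
    have h4 : (1 : ℝ) ≤ (n : ℝ) ^ 2 - n := by nlinarith
    have h5 := mul_le_mul_of_nonneg_left h4 h3
    linarith

/-- The number of the graphs of `pol f`, `f ∈ F`, through the point `ω`. -/
def cnt {q k : ℕ} (F : Finset (Fin k → ZMod q)) (ω : ZMod q × ZMod q) : ℕ :=
  (F.filter (fun f => pol f ω.1 = ω.2)).card

lemma sum_cnt {q k : ℕ} [Fact q.Prime] (F : Finset (Fin k → ZMod q)) :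
    ∑ ω : ZMod q × ZMod q, (cnt F ω : ℝ) = q * F.card := by
  classical
  have h1 : ∀ ω : ZMod q × ZMod q, (cnt F ω : ℝ) =
      ∑ f ∈ F, if pol f ω.1 = ω.2 then (1 : ℝ) else 0 := by
    intro ω
    rw [cnt, Finset.card_filter]
    push_cast
    rfl
  simp_rw [h1]
  rw [Finset.sum_comm]
  have h2 : ∀ f : Fin k → ZMod q,
      ∑ ω : ZMod q × ZMod q, (if pol f ω.1 = ω.2 then (1 : ℝ) else 0) = q := by
    intro f
    rw [Fintype.sum_prod_type]
    simp [ZMod.card]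
  simp_rw [h2]
  rw [Finset.sum_const, nsmul_eq_mul]
  ring

lemma sum_cnt_sq {q k : ℕ} [Fact q.Prime] (F : Finset (Fin k → ZMod q)) :
    ∑ ω : ZMod q × ZMod q, (cnt F ω : ℝ) ^ 2 ≤ q * F.card + (F.card : ℝ) ^ 2 * k := by
  classical
  have h1 : ∀ ω : ZMod q × ZMod q, (cnt F ω : ℝ) ^ 2 =
      ∑ f ∈ F, ∑ g ∈ F, if (pol f ω.1 = ω.2 ∧ pol g ω.1 = ω.2) then (1 : ℝ) else 0 := by
    intro ω
    rw [cnt, Finset.card_filter, sq]
    push_cast
    rw [Finset.sum_mul_sum]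
    apply Finset.sum_congr rfl
    intro f _
    apply Finset.sum_congr rfl
    intro g _
    by_cases hf : pol f ω.1 = ω.2 <;> by_cases hg : pol g ω.1 = ω.2 <;> simp [hf, hg]
  simp_rw [h1]
  rw [Finset.sum_comm]
  have h2 : ∀ f : Fin k → ZMod q, ∑ ω : ZMod q × ZMod q, ∑ g ∈ F,
      (if (pol f ω.1 = ω.2 ∧ pol g ω.1 = ω.2) then (1 : ℝ) else 0) ≤ q + F.card * k := by
    intro f
    rw [Finset.sum_comm]
    have h3 : ∀ g : Fin k → ZMod q, ∑ ω : ZMod q × ZMod q,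
        (if (pol f ω.1 = ω.2 ∧ pol g ω.1 = ω.2) then (1 : ℝ) else 0) ≤
        (if g = f then (q : ℝ) else 0) + k := by
      intro g
      rw [Fintype.sum_prod_type]
      have h4 : ∀ a : ZMod q, ∑ b : ZMod q,
          (if (pol f a = b ∧ pol g a = b) then (1 : ℝ) else 0) = if pol f a = pol g a then 1 else 0 := by
        intro a
        rw [Finset.sum_eq_single (pol f a)]
        · by_cases h : pol f a = pol g a
          · rw [if_pos ⟨rfl, h.symm⟩, if_pos h]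
          · rw [if_neg (fun hh => h hh.2.symm), if_neg h]
        · intro b _ hb
          rw [if_neg (fun hh => hb hh.1.symm)]
        · intro h; exact absurd (Finset.mem_univ _) h
      simp_rw [h4]
      by_cases hgf : g = f
      · subst hgf
        simp [ZMod.card]
      · rw [if_neg hgf, zero_add, Finset.sum_ite, Finset.sum_const_zero, add_zero,
          Finset.sum_const, nsmul_eq_mul, mul_one]
        exact_mod_cast card_agree (fun h => hgf h.symm)
    refine (Finset.sum_le_sum fun g _ => h3 g).trans ?_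
    rw [Finset.sum_add_distrib, Finset.sum_const, nsmul_eq_mul]
    gcongr
    rw [Finset.sum_ite_eq' F f]
    split_ifs
    · exact le_rfl
    · exact Nat.cast_nonneg q
  refine (Finset.sum_le_sum fun f _ => h2 f).trans ?_
  rw [Finset.sum_const, nsmul_eq_mul]
  apply le_of_eq
  ring

lemma sum_cnt_rpow {q k : ℕ} [Fact q.Prime] {P : ℝ} (hP : 0 < P) {s : ℕ}
    (F : Finset (Fin k → ZMod q)) (hF : F.card = s) (hq : (s : ℝ) ^ (P + 1) * k ≤ q) :
    ∑ ω : ZMod q × ZMod q, (cnt F ω : ℝ) ^ P ≤ 2 * s * q := by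
  have h1 : ∀ ω : ZMod q × ZMod q, (cnt F ω : ℝ) ^ P ≤
      cnt F ω + (s : ℝ) ^ P * ((cnt F ω : ℝ) ^ 2 - cnt F ω) := by
    intro ω
    apply rpow_le_quad hP
    rw [← hF]
    exact Finset.card_filter_le _ _
  refine (Finset.sum_le_sum fun ω _ => h1 ω).trans ?_
  rw [Finset.sum_add_distrib, ← Finset.mul_sum, Finset.sum_sub_distrib, sum_cnt]
  have h2 := sum_cnt_sq F
  have h3 : (0 : ℝ) ≤ (s : ℝ) ^ P := Real.rpow_nonneg (Nat.cast_nonneg s) P
  have h4 : (s : ℝ) ^ P * (∑ ω : ZMod q × ZMod q, (cnt F ω : ℝ) ^ 2 - q * F.card) ≤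
      (s : ℝ) ^ P * ((F.card : ℝ) ^ 2 * k) := by
    apply mul_le_mul_of_nonneg_left _ h3
    linarith
  rw [hF] at h4 ⊢
  rcases Nat.eq_zero_or_pos s with h0 | h0
  · subst h0
    simp only [Nat.cast_zero, mul_zero, zero_mul, sub_zero, ne_eq, OfNat.ofNat_ne_zero,
      not_false_eq_true, zero_pow, zero_add] at h4 ⊢
    exact h4
  · have h5 : (0 : ℝ) < s := by exact_mod_cast h0
    have h6 : (s : ℝ) ^ P * ((s : ℝ) ^ 2 * k) = s * ((s : ℝ) ^ (P + 1) * k) := by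
      rw [Real.rpow_add h5, Real.rpow_one]; ring
    rw [h6] at h4
    have h7 := mul_le_mul_of_nonneg_left hq h5.le
    linarith

lemma rpow_mid {r x y : ℝ} (hr : 1 ≤ r) (hx : 0 ≤ x) (hy : 0 ≤ y) :
    2 * ((x + y) / 2) ^ r ≤ x ^ r + y ^ r := by
  have h := (convexOn_rpow hr).2 (Set.mem_Ici.2 hx) (Set.mem_Ici.2 hy)
    (show (0 : ℝ) ≤ 1 / 2 by norm_num) (show (0 : ℝ) ≤ 1 / 2 by norm_num) (by norm_num)
  simp only [smul_eq_mul] at h
  have h2 : (1 / 2 * x + 1 / 2 * y) = (x + y) / 2 := by ring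
  rw [h2] at h
  linarith

/-- A choice of signs that makes the sum at least as large as its (lower bound for the) average. -/
lemma exists_signs {𝕜 : Type*} [RCLike 𝕜] {ι Ω : Type*} {E : ι → Type*}
    [∀ i, NormedAddCommGroup (E i)] [∀ i, InnerProductSpace 𝕜 (E i)] [DecidableEq Ω]
    (I : Finset ι) (v : ∀ i, Ω → E i) (r : ℝ) (hr : 1 ≤ r) (S : Finset Ω) :
    ∀ w : ∀ i, E i, ∃ ε : Ω → ℝ, (∀ ω, ε ω = 1 ∨ ε ω = -1) ∧
      ∑ i ∈ I, (‖w i‖ ^ 2 + ∑ ω ∈ S, ‖v i ω‖ ^ 2) ^ r ≤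
        ∑ i ∈ I, (‖w i + ∑ ω ∈ S, (ε ω : 𝕜) • v i ω‖ ^ 2) ^ r := by
  induction S using Finset.induction_on with
  | empty =>
    intro w
    exact ⟨fun _ => 1, fun _ => Or.inl rfl, by simp⟩
  | insert a S ha ih =>
    intro w
    have key : 2 * ∑ i ∈ I, (‖w i‖ ^ 2 + ∑ ω ∈ insert a S, ‖v i ω‖ ^ 2) ^ r ≤
        ∑ i ∈ I, (‖w i + v i a‖ ^ 2 + ∑ ω ∈ S, ‖v i ω‖ ^ 2) ^ r +
        ∑ i ∈ I, (‖w i - v i a‖ ^ 2 + ∑ ω ∈ S, ‖v i ω‖ ^ 2) ^ r := by
      rw [Finset.mul_sum, ← Finset.sum_add_distrib]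
      apply Finset.sum_le_sum
      intro i _
      have hR : 0 ≤ ∑ ω ∈ S, ‖v i ω‖ ^ 2 := Finset.sum_nonneg fun _ _ => by positivity
      have h1 := rpow_mid hr (add_nonneg (sq_nonneg ‖w i + v i a‖) hR)
        (add_nonneg (sq_nonneg ‖w i - v i a‖) hR)
      have h2 := parallelogram_law_with_norm 𝕜 (w i) (v i a)
      have h3 : (‖w i + v i a‖ ^ 2 + ∑ ω ∈ S, ‖v i ω‖ ^ 2 +
          (‖w i - v i a‖ ^ 2 + ∑ ω ∈ S, ‖v i ω‖ ^ 2)) / 2 =
          ‖w i‖ ^ 2 + ∑ ω ∈ insert a S, ‖v i ω‖ ^ 2 := by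
        rw [Finset.sum_insert ha]
        nlinarith [h2]
      rw [h3] at h1
      exact h1
    have hcase : ∑ i ∈ I, (‖w i‖ ^ 2 + ∑ ω ∈ insert a S, ‖v i ω‖ ^ 2) ^ r ≤
          ∑ i ∈ I, (‖w i + v i a‖ ^ 2 + ∑ ω ∈ S, ‖v i ω‖ ^ 2) ^ r ∨
        ∑ i ∈ I, (‖w i‖ ^ 2 + ∑ ω ∈ insert a S, ‖v i ω‖ ^ 2) ^ r ≤
          ∑ i ∈ I, (‖w i - v i a‖ ^ 2 + ∑ ω ∈ S, ‖v i ω‖ ^ 2) ^ r := by
      by_contra hcon
      push Not at hcon
      linarith [hcon.1, hcon.2]
    have hupd : ∀ (ε : Ω → ℝ) (s : ℝ) (i : ι),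
        ∑ ω ∈ insert a S, ((Function.update ε a s ω : ℝ) : 𝕜) • v i ω =
          (s : 𝕜) • v i a + ∑ ω ∈ S, (ε ω : 𝕜) • v i ω := by
      intro ε s i
      rw [Finset.sum_insert ha, Function.update_self]
      congr 1
      apply Finset.sum_congr rfl
      intro ω hω
      have hne : ω ≠ a := fun h => ha (h ▸ hω)
      rw [Function.update_of_ne hne]
    rcases hcase with h | h
    · obtain ⟨ε, hε, hle⟩ := ih (fun i => w i + v i a)
      refine ⟨Function.update ε a 1, fun ω => ?_, h.trans (hle.trans (le_of_eq ?_))⟩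
      · by_cases hω : ω = a
        · subst hω; left; simp
        · rw [Function.update_of_ne hω]; exact hε ω
      · apply Finset.sum_congr rfl
        intro i _
        rw [hupd, RCLike.ofReal_one, one_smul, add_assoc]
    · obtain ⟨ε, hε, hle⟩ := ih (fun i => w i - v i a)
      refine ⟨Function.update ε a (-1), fun ω => ?_, h.trans (hle.trans (le_of_eq ?_))⟩
      · by_cases hω : ω = a
        · subst hω; right; simp
        · rw [Function.update_of_ne hω]; exact hε ω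
      · apply Finset.sum_congr rfl
        intro i _
        rw [hupd, RCLike.ofReal_neg, RCLike.ofReal_one, neg_one_smul, sub_eq_add_neg, add_assoc]

end Pool.Agent.MP_19e277_an
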