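import Mathlib

/-!
# Definitions for MP_19e277_an

* `EllP 𝕜 p` is `ℓ_p`, `EllTwo 𝕜 n` is `ℓ_2^n`, `EllInf 𝕜 m` is `ℓ_∞^m`;
* `SumL2 𝕜 p` is `(⊕_n ℓ_2^n)_{ℓ_p}`;
* `CZero 𝕜 ι` is `c_0(ι)`; in particular `CZero 𝕜 ℕ` is `c_0` and `CZero 𝕜 (Σ n, Fin (k n))` is the
  `c_0`-sum `(⊕_n ℓ_∞^{k_n})_{c_0}` (scalar functions on the disjoint union of the index sets
  `{1, ..., k_n}` that tend to zero at infinity, with the supremum norm).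

All of these are the corresponding Mathlib types (`lp`, `EuclideanSpace`, `C₀`) with their norms.
-/

open scoped ENNReal NNReal ZeroAtInfty
open Filter Topology

namespace Pool.Agent.MP_19e277_an

universe u v w

/-- The space `ℓ_p` of scalar sequences. -/
def EllP (𝕜 : Type u) [RCLike 𝕜] (p : ℝ≥0∞) : Type u := lp (fun _ : ℕ => 𝕜) p

noncomputable instance (𝕜 : Type u) [RCLike 𝕜] (p : ℝ≥0∞) [Fact (1 ≤ p)] :
    NormedAddCommGroup (EllP 𝕜 p) := (inferInstance : NormedAddCommGroup (lp (fun _ : ℕ => 𝕜) p))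

noncomputable instance (𝕜 : Type u) [RCLike 𝕜] (p : ℝ≥0∞) [Fact (1 ≤ p)] :
    NormedSpace 𝕜 (EllP 𝕜 p) := (inferInstance : NormedSpace 𝕜 (lp (fun _ : ℕ => 𝕜) p))

/-- The space `ℓ_2^n`. -/
def EllTwo (𝕜 : Type u) [RCLike 𝕜] (n : ℕ) : Type u := EuclideanSpace 𝕜 (Fin n)

noncomputable instance (𝕜 : Type u) [RCLike 𝕜] (n : ℕ) :
    NormedAddCommGroup (EllTwo 𝕜 n) := (inferInstance : NormedAddCommGroup (EuclideanSpace 𝕜 (Fin n)))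

noncomputable instance (𝕜 : Type u) [RCLike 𝕜] (n : ℕ) :
    NormedSpace 𝕜 (EllTwo 𝕜 n) := (inferInstance : NormedSpace 𝕜 (EuclideanSpace 𝕜 (Fin n)))

/-- The space `ℓ_∞^m` (the supremum norm on `𝕜^m`). -/
def EllInf (𝕜 : Type u) (m : ℕ) : Type u := Fin m → 𝕜

noncomputable instance (𝕜 : Type u) [RCLike 𝕜] (m : ℕ) :
    NormedAddCommGroup (EllInf 𝕜 m) := (inferInstance : NormedAddCommGroup (Fin m → 𝕜))

noncomputable instance (𝕜 : Type u) [RCLike 𝕜] (m : ℕ) :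
    NormedSpace 𝕜 (EllInf 𝕜 m) := (inferInstance : NormedSpace 𝕜 (Fin m → 𝕜))

/-- The space `(⊕_n ℓ_2^n)_{ℓ_p}`. -/
def SumL2 (𝕜 : Type u) [RCLike 𝕜] (p : ℝ≥0∞) : Type u := lp (fun n : ℕ => EllTwo 𝕜 n) p

noncomputable instance (𝕜 : Type u) [RCLike 𝕜] (p : ℝ≥0∞) [Fact (1 ≤ p)] :
    NormedAddCommGroup (SumL2 𝕜 p) :=
  (inferInstance : NormedAddCommGroup (lp (fun n : ℕ => EllTwo 𝕜 n) p))

noncomputable instance (𝕜 : Type u) [RCLike 𝕜] (p : ℝ≥0∞) [Fact (1 ≤ p)] :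
    NormedSpace 𝕜 (SumL2 𝕜 p) := (inferInstance : NormedSpace 𝕜 (lp (fun n : ℕ => EllTwo 𝕜 n) p))

/-- The space `c_0(ι)` (for discrete `ι`). -/
def CZero (𝕜 : Type u) [RCLike 𝕜] (ι : Type v) [TopologicalSpace ι] : Type (max v u) := C₀(ι, 𝕜)

noncomputable instance (𝕜 : Type u) [RCLike 𝕜] (ι : Type v) [TopologicalSpace ι] :
    NormedAddCommGroup (CZero 𝕜 ι) := (inferInstance : NormedAddCommGroup C₀(ι, 𝕜))

noncomputable instance (𝕜 : Type u) [RCLike 𝕜] (ι : Type v) [TopologicalSpace ι] :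
    NormedSpace 𝕜 (CZero 𝕜 ι) := (inferInstance : NormedSpace 𝕜 C₀(ι, 𝕜))

/-- The `n`-th block of an element of `(⊕_n ℓ_2^n)_{ℓ_p}`. -/
def block {𝕜 : Type u} [RCLike 𝕜] {p : ℝ≥0∞} (x : SumL2 𝕜 p) (n : ℕ) : EllTwo 𝕜 n :=
  (show lp (fun n : ℕ => EllTwo 𝕜 n) p from x) n

/-- The function on the index set with values `f i`, tending to zero. -/
def CZero.mk {𝕜 : Type u} [RCLike 𝕜] {ι : Type v} [TopologicalSpace ι] [DiscreteTopology ι]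
    (f : ι → 𝕜) (hf : Tendsto f cofinite (𝓝 0)) : CZero 𝕜 ι :=
  (⟨⟨f, continuous_of_discreteTopology⟩, by rwa [Filter.cocompact_eq_cofinite]⟩ : C₀(ι, 𝕜))

/-- The value at `i` of an element of `c_0(ι)`. -/
def CZero.val {𝕜 : Type u} [RCLike 𝕜] {ι : Type v} [TopologicalSpace ι] (f : CZero 𝕜 ι) (i : ι) :
    𝕜 := (show C₀(ι, 𝕜) from f) i

lemma CZero.ext' {𝕜 : Type u} [RCLike 𝕜] {ι : Type v} [TopologicalSpace ι] {f g : CZero 𝕜 ι}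
    (h : ∀ i, f.val i = g.val i) : f = g :=
  ZeroAtInftyContinuousMap.ext (f := (show C₀(ι, 𝕜) from f)) h

lemma CZero.norm_val_le {𝕜 : Type u} [RCLike 𝕜] {ι : Type v} [TopologicalSpace ι] (f : CZero 𝕜 ι)
    (i : ι) : ‖f.val i‖ ≤ ‖f‖ := by
  change _ ≤ ‖(show C₀(ι, 𝕜) from f)‖
  rw [← ZeroAtInftyContinuousMap.norm_toBCF_eq_norm]
  exact (ZeroAtInftyContinuousMap.toBCF (show C₀(ι, 𝕜) from f)).norm_coe_le_norm i

lemma CZero.norm_le {𝕜 : Type u} [RCLike 𝕜] {ι : Type v} [TopologicalSpace ι] (f : CZero 𝕜 ι)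
    {C : ℝ} (hC : 0 ≤ C) (h : ∀ i, ‖f.val i‖ ≤ C) : ‖f‖ ≤ C := by
  change ‖(show C₀(ι, 𝕜) from f)‖ ≤ _
  rw [← ZeroAtInftyContinuousMap.norm_toBCF_eq_norm]
  exact (BoundedContinuousFunction.norm_le hC).2 h

lemma CZero.tendsto {𝕜 : Type u} [RCLike 𝕜] {ι : Type v} [TopologicalSpace ι] [DiscreteTopology ι]
    (f : CZero 𝕜 ι) : Tendsto f.val cofinite (𝓝 0) := by
  have h := (show C₀(ι, 𝕜) from f).zero_at_infty'
  rwa [Filter.cocompact_eq_cofinite] at h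

@[simp] lemma CZero.val_mk {𝕜 : Type u} [RCLike 𝕜] {ι : Type v} [TopologicalSpace ι]
    [DiscreteTopology ι] (f : ι → 𝕜) (hf : Tendsto f cofinite (𝓝 0)) (i : ι) :
    (CZero.mk f hf).val i = f i := rfl

@[simp] lemma CZero.val_add {𝕜 : Type u} [RCLike 𝕜] {ι : Type v} [TopologicalSpace ι]
    (f g : CZero 𝕜 ι) (i : ι) : (f + g).val i = f.val i + g.val i := rfl

@[simp] lemma CZero.val_smul {𝕜 : Type u} [RCLike 𝕜] {ι : Type v} [TopologicalSpace ι]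
    (c : 𝕜) (f : CZero 𝕜 ι) (i : ι) : (c • f).val i = c * f.val i := rfl

@[simp] lemma CZero.val_zero {𝕜 : Type u} [RCLike 𝕜] {ι : Type v} [TopologicalSpace ι]
    (i : ι) : (0 : CZero 𝕜 ι).val i = 0 := rfl

@[simp] lemma block_add {𝕜 : Type u} [RCLike 𝕜] {p : ℝ≥0∞} [Fact (1 ≤ p)] (x y : SumL2 𝕜 p)
    (n : ℕ) : block (x + y) n = block x n + block y n := rfl

@[simp] lemma block_smul {𝕜 : Type u} [RCLike 𝕜] {p : ℝ≥0∞} [Fact (1 ≤ p)] (c : 𝕜) (x : SumL2 𝕜 p)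
    (n : ℕ) : block (c • x) n = c • block x n := rfl

lemma toReal_pos' {p : ℝ≥0∞} [Fact (1 ≤ p)] (hp : p ≠ ∞) : 0 < p.toReal :=
  ENNReal.toReal_pos (zero_lt_one.trans_le (Fact.out : (1 : ℝ≥0∞) ≤ p)).ne' hp

lemma p_ne_zero {p : ℝ≥0∞} [Fact (1 ≤ p)] : p ≠ 0 :=
  (zero_lt_one.trans_le (Fact.out : (1 : ℝ≥0∞) ≤ p)).ne'

lemma tendsto_coord {p : ℝ≥0∞} [Fact (1 ≤ p)] (hp : p ≠ ∞) {E : ℕ → Type v}
    [∀ n, NormedAddCommGroup (E n)] (x : lp E p) : Tendsto (fun n => ‖x n‖) cofinite (𝓝 0) := by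
  have hp0 := toReal_pos' hp
  have h1 := ((lp.memℓp x).summable hp0).tendsto_cofinite_zero
  have h2 := h1.rpow_const (p := 1 / p.toReal) (Or.inr (by positivity))
  rw [Real.zero_rpow (by positivity)] at h2
  refine h2.congr (fun n => ?_)
  rw [← Real.rpow_mul (norm_nonneg _), mul_one_div_cancel hp0.ne', Real.rpow_one]

lemma norm_block_le {𝕜 : Type u} [RCLike 𝕜] {p : ℝ≥0∞} [Fact (1 ≤ p)] (x : SumL2 𝕜 p) (n : ℕ) :
    ‖block x n‖ ≤ ‖x‖ :=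
  lp.norm_apply_le_norm p_ne_zero (show lp (fun n : ℕ => EllTwo 𝕜 n) p from x) n

/-- A choice of linear maps `K_n : ℓ_2^n → ℓ_∞^{k_n}` with `‖x‖ ≤ ‖K_n x‖ ≤ 2‖x‖`. -/
structure KChoice (𝕜 : Type u) [RCLike 𝕜] where
  k : ℕ → ℕ
  K : ∀ n, EllTwo 𝕜 n →ₗ[𝕜] EllInf 𝕜 (k n)
  lower : ∀ n x, ‖x‖ ≤ ‖K n x‖
  upper : ∀ n x, ‖K n x‖ ≤ 2 * ‖x‖

lemma norm_val_le_block {𝕜 : Type u} [RCLike 𝕜] (D : KChoice 𝕜) (n : ℕ) (x : EllTwo 𝕜 n)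
    (j : Fin (D.k n)) : ‖D.K n x j‖ ≤ 2 * ‖x‖ :=
  (norm_le_pi_norm (D.K n x : Fin (D.k n) → 𝕜) j).trans (D.upper n x)

lemma tendsto_diag {𝕜 : Type u} [RCLike 𝕜] {p : ℝ≥0∞} [Fact (1 ≤ p)] (hp : p ≠ ∞)
    (D : KChoice 𝕜) (x : SumL2 𝕜 p) :
    Tendsto (fun i : (Σ n, Fin (D.k n)) => D.K i.1 (block x i.1) i.2) cofinite (𝓝 0) := by
  have h1 : Tendsto (fun i : (Σ n, Fin (D.k n)) => 2 * ‖block x i.1‖) cofinite (𝓝 0) := by
    have h2 := (tendsto_coord hp (show lp (fun n : ℕ => EllTwo 𝕜 n) p from x)).const_mul 2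
    rw [mul_zero] at h2
    refine h2.comp ?_
    apply Tendsto.cofinite_of_finite_preimage_singleton
    intro n
    apply Set.Finite.subset (Set.finite_range (fun j : Fin (D.k n) => (⟨n, j⟩ : Σ n, Fin (D.k n))))
    rintro ⟨m, j⟩ h
    have : m = n := h
    subst this
    exact ⟨j, rfl⟩
  exact squeeze_zero_norm (fun i => norm_val_le_block D i.1 (block x i.1) i.2) h1

/-- The linear map `x ↦ (K_n x_n)_n` from `(⊕ ℓ_2^n)_{ℓ_p}` to `(⊕ ℓ_∞^{k_n})_{c_0}`. -/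
noncomputable def diagLin {𝕜 : Type u} [RCLike 𝕜] {p : ℝ≥0∞} [Fact (1 ≤ p)] (hp : p ≠ ∞)
    (D : KChoice 𝕜) : SumL2 𝕜 p →ₗ[𝕜] CZero 𝕜 (Σ n, Fin (D.k n)) where
  toFun x := CZero.mk (fun i => D.K i.1 (block x i.1) i.2) (tendsto_diag hp D x)
  map_add' x y := CZero.ext' fun i => congrFun (map_add (D.K i.1) (block x i.1) (block y i.1)) i.2
  map_smul' c x := CZero.ext' fun i => congrFun (map_smul (D.K i.1) c (block x i.1)) i.2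

lemma diagLin_bound {𝕜 : Type u} [RCLike 𝕜] {p : ℝ≥0∞} [Fact (1 ≤ p)] (hp : p ≠ ∞)
    (D : KChoice 𝕜) (x : SumL2 𝕜 p) : ‖diagLin hp D x‖ ≤ 2 * ‖x‖ :=
  CZero.norm_le _ (by positivity) fun i => (norm_val_le_block D i.1 (block x i.1) i.2).trans
    (mul_le_mul_of_nonneg_left (norm_block_le x i.1) zero_le_two)

/-- The diagonal operator `K = diag(K_n) : (⊕ ℓ_2^n)_{ℓ_p} → (⊕ ℓ_∞^{k_n})_{c_0}`. -/
noncomputable def diagOp {𝕜 : Type u} [RCLike 𝕜] {p : ℝ≥0∞} [Fact (1 ≤ p)] (hp : p ≠ ∞)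
    (D : KChoice 𝕜) : SumL2 𝕜 p →L[𝕜] CZero 𝕜 (Σ n, Fin (D.k n)) :=
  (diagLin hp D).mkContinuous 2 (diagLin_bound hp D)

/-- `J^T(X,Y)`: the norm closure of the finite sums `∑ A_i T B_i`. -/
def closedIdeal {𝕜 : Type u} [RCLike 𝕜] {V W X Y : Type*}
    [NormedAddCommGroup V] [NormedSpace 𝕜 V] [NormedAddCommGroup W] [NormedSpace 𝕜 W]
    [NormedAddCommGroup X] [NormedSpace 𝕜 X] [NormedAddCommGroup Y] [NormedSpace 𝕜 Y]
    (T : V →L[𝕜] W) : Set (X →L[𝕜] Y) :=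
  closure {S | ∃ (m : ℕ) (A : Fin m → W →L[𝕜] Y) (B : Fin m → X →L[𝕜] V),
    S = ∑ i, (A i).comp (T.comp (B i))}

/-- `T` is finitely strictly singular: for every `ε > 0` there is `n` such that every subspace
`E` with `dim E ≥ n` contains `x ≠ 0` with `‖Tx‖ < ε‖x‖`. -/
def IsFinitelyStrictlySingular {𝕜 : Type u} [RCLike 𝕜] {X Y : Type*}
    [NormedAddCommGroup X] [NormedSpace 𝕜 X] [NormedAddCommGroup Y] [NormedSpace 𝕜 Y]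
    (T : X →L[𝕜] Y) : Prop :=
  ∀ ε : ℝ, 0 < ε → ∃ n : ℕ, ∀ E : Submodule 𝕜 X, (n : Cardinal) ≤ Module.rank 𝕜 E →
    ∃ x ∈ E, x ≠ 0 ∧ ‖T x‖ < ε * ‖x‖

end Pool.Agent.MP_19e277_an
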