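import Pool.Agent.Lib.MP_19e277_an.Defs

open scoped ENNReal NNReal
open Filter Topology

namespace Pool.Agent.MP_19e277_an

universe u

lemma exists_K_aux (𝕜 : Type u) [RCLike 𝕜] (n : ℕ) :
    ∃ (k : ℕ) (K : EuclideanSpace 𝕜 (Fin n) →ₗ[𝕜] (Fin k → 𝕜)),
      ∀ x, ‖x‖ ≤ ‖K x‖ ∧ ‖K x‖ ≤ 2 * ‖x‖ := by
  have hcomp : IsCompact (Metric.sphere (0 : EuclideanSpace 𝕜 (Fin n)) 1) := isCompact_sphere _ _
  obtain ⟨t, ht, htfin, hcov⟩ := hcomp.finite_cover_balls (show (0 : ℝ) < 1 / 2 by norm_num)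
  have := htfin.fintype
  let e := Fintype.equivFin t
  let K : EuclideanSpace 𝕜 (Fin n) →ₗ[𝕜] (Fin (Fintype.card t) → 𝕜) :=
    { toFun := fun x j => 2 * inner 𝕜 ((e.symm j : t) : EuclideanSpace 𝕜 (Fin n)) x
      map_add' := fun x y => by
        funext j
        simp [inner_add_right, mul_add]
      map_smul' := fun c x => by
        funext j
        simp only [inner_smul_right, RingHom.id_apply, Pi.smul_apply, smul_eq_mul]
        ring }
  refine ⟨Fintype.card t, K, fun x => ?_⟩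
  have hnorm : ∀ j, ‖K x j‖ ≤ 2 * ‖x‖ := by
    intro j
    have h1 : ‖((e.symm j : t) : EuclideanSpace 𝕜 (Fin n))‖ = 1 := by
      have := ht (e.symm j).2
      rwa [mem_sphere_zero_iff_norm] at this
    change ‖(2 : 𝕜) * inner 𝕜 ((e.symm j : t) : EuclideanSpace 𝕜 (Fin n)) x‖ ≤ _
    rw [norm_mul, RCLike.norm_two]
    have h2 := norm_inner_le_norm (𝕜 := 𝕜) ((e.symm j : t) : EuclideanSpace 𝕜 (Fin n)) x
    rw [h1, one_mul] at h2
    linarith
  constructor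
  · by_cases hx : x = 0
    · rw [hx, norm_zero]; exact norm_nonneg _
    · have hx0 : 0 < ‖x‖ := norm_pos_iff.2 hx
      let u : EuclideanSpace 𝕜 (Fin n) := ((‖x‖⁻¹ : ℝ) : 𝕜) • x
      have hu : u ∈ Metric.sphere (0 : EuclideanSpace 𝕜 (Fin n)) 1 := by
        rw [mem_sphere_zero_iff_norm, norm_smul, RCLike.norm_ofReal, abs_of_pos (inv_pos.2 hx0),
          inv_mul_cancel₀ hx0.ne']
      have h3 := hcov hu
      simp only [Set.mem_iUnion] at h3
      obtain ⟨w, hw, huw⟩ := h3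
      rw [Metric.mem_ball, dist_eq_norm] at huw
      have h4 : ‖K x (e ⟨w, hw⟩)‖ ≤ ‖K x‖ := norm_le_pi_norm _ _
      refine le_trans ?_ h4
      change _ ≤ ‖(2 : 𝕜) * inner 𝕜 ((e.symm (e ⟨w, hw⟩) : t) : EuclideanSpace 𝕜 (Fin n)) x‖
      rw [Equiv.symm_apply_apply, norm_mul, RCLike.norm_two]
      have h5 : inner 𝕜 u x = ((‖x‖ : ℝ) : 𝕜) := by
        simp only [u]
        rw [inner_smul_left, inner_self_eq_norm_sq_to_K, RCLike.conj_ofReal,
          ← RCLike.ofReal_pow, ← RCLike.ofReal_mul]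
        congr 1
        field_simp
      have h6 : ‖inner 𝕜 (u - w) x‖ ≤ 1 / 2 * ‖x‖ := by
        refine (norm_inner_le_norm _ _).trans ?_
        exact mul_le_mul_of_nonneg_right huw.le hx0.le
      have h7 : ‖inner 𝕜 u x‖ ≤ ‖inner 𝕜 (u - w) x‖ + ‖inner 𝕜 w x‖ := by
        have h8 : inner 𝕜 u x = inner 𝕜 (u - w) x + inner 𝕜 w x := by
          rw [← inner_add_left, sub_add_cancel]
        rw [h8]
        exact norm_add_le _ _
      rw [h5, RCLike.norm_ofReal, abs_of_pos hx0] at h7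
      linarith
  · exact (pi_norm_le_iff_of_nonneg (by positivity)).2 hnorm

lemma exists_K (𝕜 : Type u) [RCLike 𝕜] (n : ℕ) :
    ∃ (k : ℕ) (K : EllTwo 𝕜 n →ₗ[𝕜] EllInf 𝕜 k), ∀ x, ‖x‖ ≤ ‖K x‖ ∧ ‖K x‖ ≤ 2 * ‖x‖ :=
  exists_K_aux 𝕜 n

/-- Choices of the maps `K_n` exist. -/
theorem nonempty_KChoice (𝕜 : Type u) [RCLike 𝕜] : Nonempty (KChoice 𝕜) := by
  choose k K hK using exists_K 𝕜
  exact ⟨⟨k, K, fun n x => (hK n x).1, fun n x => (hK n x).2⟩⟩

end Pool.Agent.MP_19e277_an
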