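import Pool.Agent.Lib.MP_19e277_an.Fss

open scoped ENNReal NNReal
open Filter Topology

namespace Pool.Agent.MP_19e277_an

universe u v w

noncomputable instance instIPEllTwo (𝕜 : Type u) [RCLike 𝕜] (n : ℕ) :
    InnerProductSpace 𝕜 (EllTwo 𝕜 n) :=
  (inferInstance : InnerProductSpace 𝕜 (EuclideanSpace 𝕜 (Fin n)))

variable {𝕜 : Type u} [RCLike 𝕜] {p : ℝ≥0∞}

lemma diagOp_norm_le [Fact (1 ≤ p)] (hp : p ≠ ∞) (D : KChoice 𝕜) (y : SumL2 𝕜 p) {c : ℝ}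
    (hc : 0 ≤ c) (h : ∀ n, ‖block y n‖ ≤ c) : ‖diagOp hp D y‖ ≤ 2 * c :=
  CZero.norm_le _ (by positivity) fun i => (norm_val_le_block D i.1 (block y i.1) i.2).trans
    (mul_le_mul_of_nonneg_left (h i.1) zero_le_two)

lemma extract [Fact (1 ≤ p)] (hp : p ≠ ∞) (D : KChoice 𝕜) {X : Type*} [NormedAddCommGroup X]
    [NormedSpace 𝕜 X] (T : X →L[𝕜] CZero 𝕜 ℕ) (hT : T ∈ closedIdeal (diagOp hp D)) :
    ∃ (m : ℕ) (B : Fin m → X →L[𝕜] SumL2 𝕜 p) (c : ℝ), 0 < c ∧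
      ∀ x, ‖x‖ ≤ 1 → 1 ≤ ‖T x‖ → ∃ l n, c ≤ ‖block (B l x) n‖ := by
  obtain ⟨S, ⟨m, A, B, rfl⟩, hS⟩ := Metric.mem_closure_iff.1 hT (1 / 2) (by norm_num)
  have hA : 0 ≤ ∑ l, ‖A l‖ := Finset.sum_nonneg fun l _ => norm_nonneg _
  refine ⟨m, B, 1 / (8 * (∑ l, ‖A l‖ + 1)), by positivity, fun x hx hTx => ?_⟩
  by_contra hcon
  push Not at hcon
  set c := 1 / (8 * (∑ l, ‖A l‖ + 1)) with hc
  have hc0 : 0 < c := by positivity
  have h1 : ‖T x - (∑ l, (A l).comp ((diagOp hp D).comp (B l))) x‖ ≤ 1 / 2 := by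
    rw [dist_eq_norm] at hS
    have h2 := (T - ∑ l, (A l).comp ((diagOp hp D).comp (B l))).le_opNorm x
    rw [_root_.sub_apply] at h2
    refine h2.trans ?_
    calc ‖T - ∑ l, (A l).comp ((diagOp hp D).comp (B l))‖ * ‖x‖ ≤ (1 / 2) * 1 := by
          apply mul_le_mul hS.le hx (norm_nonneg _) (by norm_num)
      _ = 1 / 2 := by norm_num
  have h2 : ‖(∑ l, (A l).comp ((diagOp hp D).comp (B l))) x‖ ≤ 1 / 4 := by
    rw [_root_.sum_apply]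
    refine (norm_sum_le _ _).trans ?_
    have h3 : ∀ l ∈ (Finset.univ : Finset (Fin m)),
        ‖((A l).comp ((diagOp hp D).comp (B l))) x‖ ≤ ‖A l‖ * (2 * c) := by
      intro l _
      refine ((A l).le_opNorm _).trans ?_
      apply mul_le_mul_of_nonneg_left _ (norm_nonneg _)
      exact diagOp_norm_le hp D (B l x) hc0.le (fun n => (hcon l n).le)
    refine (Finset.sum_le_sum h3).trans ?_
    rw [← Finset.sum_mul, hc]
    rw [mul_one_div, mul_div_assoc', div_le_iff₀ (by positivity)]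
    linarith
  have h3 : ‖T x‖ ≤ ‖T x - (∑ l, (A l).comp ((diagOp hp D).comp (B l))) x‖ +
      ‖(∑ l, (A l).comp ((diagOp hp D).comp (B l))) x‖ := by
    have := norm_add_le (T x - (∑ l, (A l).comp ((diagOp hp D).comp (B l))) x)
      ((∑ l, (A l).comp ((diagOp hp D).comp (B l))) x)
    rwa [sub_add_cancel] at this
  linarith

lemma sum_block_le [Fact (1 ≤ p)] (hp : p ≠ ∞) {X : Type*} [NormedAddCommGroup X]
    [NormedSpace 𝕜 X] {m : ℕ} (B : Fin m → X →L[𝕜] SumL2 𝕜 p) (I : Finset (Fin m × ℕ)) (x : X) :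
    ∑ i ∈ I, ‖block (B i.1 x) i.2‖ ^ p.toReal ≤ (∑ l, ‖B l‖ ^ p.toReal) * ‖x‖ ^ p.toReal := by
  classical
  have hp0 := toReal_pos' hp
  have h1 : I ⊆ Finset.univ ×ˢ I.image Prod.snd := by
    intro i hi
    rw [Finset.mem_product]
    exact ⟨Finset.mem_univ _, Finset.mem_image_of_mem _ hi⟩
  refine (Finset.sum_le_sum_of_subset_of_nonneg h1 (fun _ _ _ => by positivity)).trans ?_
  rw [Finset.sum_product, Finset.sum_mul]
  apply Finset.sum_le_sum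
  intro l _
  have h2 : ∑ n ∈ I.image Prod.snd, ‖block (B l x) n‖ ^ p.toReal ≤ ‖B l x‖ ^ p.toReal :=
    lp.sum_rpow_le_norm_rpow hp0 (show lp (fun n : ℕ => EllTwo 𝕜 n) p from B l x) _
  refine h2.trans ?_
  rw [← Real.mul_rpow (norm_nonneg _) (norm_nonneg _)]
  exact Real.rpow_le_rpow (norm_nonneg _) ((B l).le_opNorm x) hp0.le

/-- The block maps as linear maps. -/
noncomputable def blockLin [Fact (1 ≤ p)] {X : Type*} [NormedAddCommGroup X]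
    [NormedSpace 𝕜 X] (B : X →L[𝕜] SumL2 𝕜 p) (n : ℕ) : X →ₗ[𝕜] EllTwo 𝕜 n where
  toFun x := block (B x) n
  map_add' x y := by rw [map_add, block_add]
  map_smul' c x := by rw [map_smul, block_smul, RingHom.id_apply]

/-- The images of the unit vectors under the block maps. -/
noncomputable def bv [Fact (1 ≤ p)] (e : Pts ≃ ℕ) {m : ℕ} (B : Fin m → EllP 𝕜 p →L[𝕜] SumL2 𝕜 p)
    (q : Nat.Primes) (i : Fin m × ℕ) (ω : ZMod (q : ℕ) × ZMod (q : ℕ)) : EllTwo 𝕜 i.2 :=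
  blockLin (B i.1) i.2 (show EllP 𝕜 p from lp.single p (e ⟨q, ω⟩) (1 : 𝕜))

lemma inj_pts (e : Pts ≃ ℕ) (q : Nat.Primes) :
    Function.Injective (fun ω : ZMod (q : ℕ) × ZMod (q : ℕ) => e ⟨q, ω⟩) := by
  intro a b h
  have h1 := e.injective h
  exact eq_of_heq (Sigma.mk.inj_iff.1 h1).2

lemma block_vec [Fact (1 ≤ p)] (e : Pts ≃ ℕ) {m : ℕ} (B : Fin m → EllP 𝕜 p →L[𝕜] SumL2 𝕜 p)
    (q : Nat.Primes) (i : Fin m × ℕ) (y : ZMod (q : ℕ) × ZMod (q : ℕ) → 𝕜) :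
    block (B i.1 (vec (fun ω => e ⟨q, ω⟩) y)) i.2 = ∑ ω, y ω • bv e B q i ω :=
  map_vec (blockLin (B i.1) i.2) (fun ω => e ⟨q, ω⟩) y

lemma bv_bound [Fact (1 ≤ p)] (hp : p ≠ ∞) (e : Pts ≃ ℕ) {m : ℕ}
    (B : Fin m → EllP 𝕜 p →L[𝕜] SumL2 𝕜 p) (q : Nat.Primes) (I : Finset (Fin m × ℕ))
    (y : ZMod (q : ℕ) × ZMod (q : ℕ) → ℝ) :
    ∑ i ∈ I, ‖∑ ω, (y ω : 𝕜) • bv e B q i ω‖ ^ p.toReal ≤
      (∑ l, ‖B l‖ ^ p.toReal) * ∑ ω, |y ω| ^ p.toReal := by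
  have h1 := sum_block_le hp B I (vec (fun ω => e ⟨q, ω⟩) (fun ω => (y ω : 𝕜)))
  rw [norm_vec hp (inj_pts e q)] at h1
  simp only [RCLike.norm_ofReal, block_vec] at h1
  exact h1

/-- The normalised indicator vector of a graph. -/
noncomputable def tv [Fact (1 ≤ p)] (𝕜 : Type u) [RCLike 𝕜] (e : Pts ≃ ℕ) {k : ℕ} (q : Nat.Primes)
    (f : Fin k → ZMod (q : ℕ)) : EllP 𝕜 p :=
  vec (fun ω => e ⟨q, ω⟩)
    (fun ω => if pol f ω.1 = ω.2 then (((q : ℕ) : ℝ) ^ (-(1 / p.toReal)) : ℝ) else 0)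

lemma norm_tv [Fact (1 ≤ p)] (hp : p ≠ ∞) (e : Pts ≃ ℕ) {k : ℕ} (q : Nat.Primes)
    (f : Fin k → ZMod (q : ℕ)) : ‖tv (p := p) 𝕜 e q f‖ = 1 := by
  have hp0 := toReal_pos' hp
  have hq0 : (0 : ℝ) < (q : ℕ) := by exact_mod_cast q.2.pos
  have h1 := norm_vec (𝕜 := 𝕜) (p := p) hp (inj_pts e q)
    (fun ω => if pol f ω.1 = ω.2 then (((q : ℕ) : ℝ) ^ (-(1 / p.toReal)) : ℝ) else 0)
  have h2 : ∑ ω : ZMod (q : ℕ) × ZMod (q : ℕ), ‖(if pol f ω.1 = ω.2 then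
      ((((q : ℕ) : ℝ) ^ (-(1 / p.toReal)) : ℝ) : 𝕜) else 0)‖ ^ p.toReal = 1 := by
    rw [Fintype.sum_prod_type]
    have h3 : ∀ a : ZMod (q : ℕ), ∑ b : ZMod (q : ℕ), ‖(if pol f a = b then
        ((((q : ℕ) : ℝ) ^ (-(1 / p.toReal)) : ℝ) : 𝕜) else 0)‖ ^ p.toReal = 1 / (q : ℕ) := by
      intro a
      rw [Finset.sum_eq_single (pol f a)]
      · rw [if_pos rfl, RCLike.norm_ofReal, abs_of_pos (by positivity), ← Real.rpow_mul hq0.le,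
          neg_mul, one_div_mul_cancel hp0.ne', Real.rpow_neg hq0.le, Real.rpow_one, one_div]
      · intro b _ hb
        rw [if_neg (fun h => hb h.symm), norm_zero, Real.zero_rpow hp0.ne']
      · intro h; exact absurd (Finset.mem_univ _) h
    simp only [h3]
    rw [Finset.sum_const, Finset.card_univ, ZMod.card, nsmul_eq_mul, mul_one_div_cancel hq0.ne']
  rw [h2] at h1
  have h3 : ‖tv (p := p) 𝕜 e q f‖ ^ p.toReal = 1 := h1
  have h4 : ‖tv (p := p) 𝕜 e q f‖ ^ p.toReal = (1 : ℝ) ^ p.toReal := by rw [h3, Real.one_rpow]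
  exact (Real.rpow_left_inj (norm_nonneg _) zero_le_one hp0.ne').1 h4

lemma row_tv [Fact (1 ≤ p)] (hp : p ≠ ∞) (e : Pts ≃ ℕ) {k : ℕ} (q : Nat.Primes)
    (f : Fin k → ZMod (q : ℕ)) : row e (⟨q, f⟩ : Fns k) (tv (p := p) 𝕜 e q f) = 1 := by
  have hp0 := toReal_pos' hp
  have hq0 : (0 : ℝ) < (q : ℕ) := by exact_mod_cast q.2.pos
  change (((((q : ℕ) : ℝ) ^ (1 / p.toReal - 1) : ℝ)) : 𝕜) *
    ∑ ω ∈ gr (⟨q, f⟩ : Fns k), (tv (p := p) 𝕜 e q f).val (e ω) = 1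
  rw [gr, Finset.sum_map]
  have h1 : ∀ a : ZMod (q : ℕ), (tv (p := p) 𝕜 e q f).val (e ⟨q, (a, pol f a)⟩) =
      ((((q : ℕ) : ℝ) ^ (-(1 / p.toReal)) : ℝ) : 𝕜) := by
    intro a
    have h2 := vec_val (𝕜 := 𝕜) (p := p) (inj_pts e q)
      (fun ω => if pol f ω.1 = ω.2 then (((q : ℕ) : ℝ) ^ (-(1 / p.toReal)) : ℝ) else 0)
      (a, pol f a)
    simp only [if_true] at h2
    exact h2
  have h3 : ∑ a : ZMod (q : ℕ), (tv (p := p) 𝕜 e q f).val (e ⟨q, (a, pol f a)⟩) =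
      ((q : ℕ) : 𝕜) * ((((q : ℕ) : ℝ) ^ (-(1 / p.toReal)) : ℝ) : 𝕜) := by
    rw [Finset.sum_congr rfl (fun a _ => h1 a), Finset.sum_const, Finset.card_univ, ZMod.card,
      nsmul_eq_mul]
  refine (congrArg _ h3).trans ?_
  have h4 : ((q : ℕ) : 𝕜) = (((q : ℕ) : ℝ) : 𝕜) := by push_cast; rfl
  rw [h4, ← RCLike.ofReal_mul, ← RCLike.ofReal_mul]
  have h5 : ((q : ℕ) : ℝ) ^ (1 / p.toReal - 1) * (((q : ℕ) : ℝ) *
      ((q : ℕ) : ℝ) ^ (-(1 / p.toReal))) = 1 := by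
    rw [Real.rpow_sub hq0, Real.rpow_neg hq0.le, Real.rpow_one]
    field_simp
  rw [h5, RCLike.ofReal_one]

end Pool.Agent.MP_19e277_an
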