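import Pool.Agent.Lib.MP_19e277_an.Defs

open scoped ENNReal NNReal
open Filter Topology

namespace Pool.Agent.MP_19e277_an

universe u v w

/-- Milman's flat vector lemma, abstract form. -/
lemma exists_flat_aux {𝕜 : Type u} [RCLike 𝕜] {Z : Type v} [NormedAddCommGroup Z]
    [NormedSpace 𝕜 Z] [FiniteDimensional 𝕜 Z] (co : ℕ → Z →ₗ[𝕜] 𝕜)
    (hco : ∀ i z, ‖co i z‖ ≤ ‖z‖) (hsup : ∀ z, (∀ i, ‖co i z‖ ≤ 1) → ‖z‖ ≤ 1)
    (hlim : ∀ z, Tendsto (fun i => ‖co i z‖) atTop (𝓝 0)) :
    ∃ y : Z, ‖y‖ ≤ 1 ∧ ∃ F : Finset ℕ, F.card = Module.finrank 𝕜 Z ∧ ∀ i ∈ F, ‖co i y‖ = 1 := by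
  classical
  let _ : NormedSpace ℝ Z := NormedSpace.restrictScalars ℝ 𝕜 Z
  have : ProperSpace Z := FiniteDimensional.proper 𝕜 Z
  have hB : IsCompact (Metric.closedBall (0 : Z) 1) := isCompact_closedBall _ _
  obtain ⟨y, hy⟩ := hB.extremePoints_nonempty ⟨0, by simp⟩
  have hy1 : ‖y‖ ≤ 1 := by
    have := hy.1
    rwa [mem_closedBall_zero_iff] at this
  have hyi : ∀ i, ‖co i y‖ ≤ 1 := fun i => (hco i y).trans hy1
  have ht := hlim y
  obtain ⟨i0, hi0⟩ := (ht.eventually (gt_mem_nhds (show (0 : ℝ) < 1 / 2 by norm_num))).exists_forall_of_atTop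
  let F : Finset ℕ := (Finset.range i0).filter (fun i => ‖co i y‖ = 1)
  by_cases hF : Module.finrank 𝕜 Z ≤ F.card
  · obtain ⟨F', hF', hc⟩ := Finset.exists_subset_card_eq hF
    refine ⟨y, hy1, F', hc, fun i hi => ?_⟩
    exact (Finset.mem_filter.1 (hF' hi)).2
  · exfalso
    push Not at hF
    -- a vector vanishing on F
    let L : Z →ₗ[𝕜] (F → 𝕜) := LinearMap.pi fun i => co i
    have hker : LinearMap.ker L ≠ ⊥ := by
      apply LinearMap.ker_ne_bot_of_finrank_lt
      simpa using hF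
    obtain ⟨z, hz, hz0⟩ := Submodule.exists_mem_ne_zero_of_ne_bot hker
    have hzF : ∀ i ∈ F, co i z = 0 := by
      intro i hi
      exact congrFun (LinearMap.mem_ker.1 hz) ⟨i, hi⟩
    -- the gap
    obtain ⟨δ, hδ0, hδ⟩ : ∃ δ : ℝ, 0 < δ ∧ ∀ i, i ∉ F → ‖co i y‖ ≤ 1 - δ := by
      let G : Finset ℕ := (Finset.range i0).filter (fun i => ‖co i y‖ ≠ 1)
      rcases G.eq_empty_or_nonempty with hG | hG
      · refine ⟨1 / 2, by norm_num, fun i hi => ?_⟩
        by_cases h : i < i0
        · exfalso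
          have h1 : ‖co i y‖ ≠ 1 := fun h1 => hi (Finset.mem_filter.2 ⟨Finset.mem_range.2 h, h1⟩)
          have h2 : i ∈ G := Finset.mem_filter.2 ⟨Finset.mem_range.2 h, h1⟩
          rw [hG] at h2
          simp at h2
        · have := hi0 i (by omega)
          linarith
      · obtain ⟨j, hj, hmax⟩ := G.exists_max_image (fun i => ‖co i y‖) hG
        have hj1 : ‖co j y‖ < 1 := lt_of_le_of_ne (hyi j) (Finset.mem_filter.1 hj).2
        refine ⟨min (1 / 2) (1 - ‖co j y‖), by
          apply lt_min (by norm_num); linarith, fun i hi => ?_⟩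
        by_cases h : i < i0
        · have h1 : ‖co i y‖ ≠ 1 := fun h1 => hi (Finset.mem_filter.2 ⟨Finset.mem_range.2 h, h1⟩)
          have h2 : i ∈ G := Finset.mem_filter.2 ⟨Finset.mem_range.2 h, h1⟩
          have h3 := hmax i h2
          have h4 := min_le_right (1 / 2) (1 - ‖co j y‖)
          linarith
        · have := hi0 i (by omega)
          have h4 := min_le_left (1 / 2) (1 - ‖co j y‖)
          linarith
    have hzn : 0 < ‖z‖ := norm_pos_iff.2 hz0
    let t : ℝ := δ / ‖z‖
    have ht0 : 0 < t := div_pos hδ0 hzn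
    have htz : t * ‖z‖ = δ := div_mul_cancel₀ _ hzn.ne'
    have hball : ∀ s : ℝ, |s| = t → y + s • z ∈ Metric.closedBall (0 : Z) 1 := by
      intro s hs
      rw [mem_closedBall_zero_iff]
      apply hsup
      intro i
      have h1 : co i (y + s • z) = co i y + (s : 𝕜) * co i z := by
        have : s • z = (s : 𝕜) • z := rfl
        rw [map_add, this, map_smul, smul_eq_mul]
      rw [h1]
      by_cases hi : i ∈ F
      · rw [hzF i hi, mul_zero, add_zero]
        exact hyi i
      · calc ‖co i y + (s : 𝕜) * co i z‖ ≤ ‖co i y‖ + ‖(s : 𝕜) * co i z‖ := norm_add_le _ _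
          _ = ‖co i y‖ + t * ‖co i z‖ := by rw [norm_mul, RCLike.norm_ofReal, hs]
          _ ≤ (1 - δ) + t * ‖z‖ := by
            gcongr
            · exact hδ i hi
            · exact hco i z
          _ = 1 := by rw [htz]; ring
    have h1 := hball t (abs_of_pos ht0)
    have h2 := hball (-t) (by rw [abs_neg, abs_of_pos ht0])
    have h3 : y ∈ openSegment ℝ (y + t • z) (y + (-t) • z) := by
      refine ⟨1 / 2, 1 / 2, by norm_num, by norm_num, by norm_num, ?_⟩
      rw [← smul_add]
      have : y + t • z + (y + (-t) • z) = (2 : ℝ) • y := by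
        rw [neg_smul, two_smul]; abel
      rw [this, smul_smul]
      norm_num
    have h4 := hy.2 h1 h2 h3
    have h5 : t • z = 0 := by simpa using h4
    rcases smul_eq_zero.1 h5 with h6 | h6
    · exact ht0.ne' h6
    · exact hz0 h6

/-- A criterion for finite strict singularity of operators into `c_0`. -/
lemma fss_criterion {𝕜 : Type u} [RCLike 𝕜] {X : Type v} [NormedAddCommGroup X]
    [NormedSpace 𝕜 X] (T : X →L[𝕜] CZero 𝕜 ℕ)
    (h : ∀ ε : ℝ, 0 < ε → ∃ N i0 : ℕ, ∀ F : Finset ℕ, F.card = N → (∀ i ∈ F, i0 ≤ i) →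
      ∀ x : X, (∀ i ∈ F, ‖(T x).val i‖ = 1) → 1 < ε * ‖x‖) :
    IsFinitelyStrictlySingular T := by
  intro ε hε
  obtain ⟨N, i0, hN⟩ := h ε hε
  refine ⟨N + i0, fun E hE => ?_⟩
  obtain ⟨f, hf⟩ := Module.le_rank_iff_exists_linearMap.1 hE
  let co : ℕ → CZero 𝕜 ℕ →ₗ[𝕜] 𝕜 := fun i =>
    { toFun := fun f => f.val i
      map_add' := fun f g => rfl
      map_smul' := fun c f => rfl }
  let g : (Fin (N + i0) → 𝕜) →ₗ[𝕜] X := E.subtype.comp f
  have hg : Function.Injective g := E.injective_subtype.comp hf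
  have hgE : ∀ u, g u ∈ E := fun u => (f u).2
  let Tg : (Fin (N + i0) → 𝕜) →ₗ[𝕜] CZero 𝕜 ℕ := (T : X →ₗ[𝕜] _).comp g
  let L : (Fin (N + i0) → 𝕜) →ₗ[𝕜] (Fin i0 → 𝕜) := LinearMap.pi fun i => (co i).comp Tg
  have hker : N ≤ Module.finrank 𝕜 (LinearMap.ker L) := by
    have h1 := L.finrank_range_add_finrank_ker
    have h2 : Module.finrank 𝕜 (LinearMap.range L) ≤ i0 := by
      have := Submodule.finrank_le (LinearMap.range L)
      simpa using this
    simp only [Module.finrank_fintype_fun_eq_card, Fintype.card_fin] at h1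
    omega
  by_cases hinj : ∀ u ∈ LinearMap.ker L, Tg u = 0 → u = 0
  · let Z : Submodule 𝕜 (CZero 𝕜 ℕ) := (LinearMap.ker L).map Tg
    have hZ : Module.finrank 𝕜 Z = Module.finrank 𝕜 (LinearMap.ker L) := by
      have h1 : Function.Injective (Tg.domRestrict (LinearMap.ker L)) := by
        rw [injective_iff_map_eq_zero]
        rintro ⟨u, hu⟩ h0
        have := hinj u hu h0
        exact Subtype.ext this
      have h2 := LinearMap.finrank_range_of_inj h1
      rw [LinearMap.range_domRestrict] at h2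
      exact h2
    have hfin : FiniteDimensional 𝕜 Z := inferInstance
    obtain ⟨y, hy1, F, hF, hFy⟩ := exists_flat_aux (𝕜 := 𝕜) (Z := Z)
      (fun i => (co i).comp Z.subtype)
      (fun i z => CZero.norm_val_le _ i)
      (fun z hz => CZero.norm_le _ zero_le_one hz)
      (fun z => by
        have h1 := ((z : CZero 𝕜 ℕ).tendsto).norm
        rw [Nat.cofinite_eq_atTop, norm_zero] at h1
        exact h1)
    obtain ⟨u, hu, huy⟩ := y.2
    obtain ⟨F', hF', hc⟩ := Finset.exists_subset_card_eq (hker.trans (hZ.symm.trans hF.symm).le)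
    have hlt : 1 < ε * ‖g u‖ := by
      apply hN F' hc
      · intro i hi
        by_contra hcon
        push Not at hcon
        have h1 := hFy i (hF' hi)
        have h2 : co i (Tg u) = 0 := congrFun (LinearMap.mem_ker.1 hu) ⟨i, hcon⟩
        have h3 : ((co i).comp Z.subtype) y = co i (Tg u) := by
          rw [huy]; rfl
        rw [h3, h2, norm_zero] at h1
        exact zero_ne_one h1
      · intro i hi
        have h1 := hFy i (hF' hi)
        have h3 : ((co i).comp Z.subtype) y = (T (g u)).val i := by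
          have : ((co i).comp Z.subtype) y = co i (Tg u) := by
            rw [huy]; rfl
          rw [this]; rfl
        rw [← h3]; exact h1
    refine ⟨g u, hgE u, ?_, ?_⟩
    · intro h0
      rw [h0, norm_zero, mul_zero] at hlt
      linarith
    · have h4 : ‖T (g u)‖ = ‖y‖ := by
        have : T (g u) = (y : CZero 𝕜 ℕ) := huy
        rw [this]; rfl
      rw [h4]
      linarith
  · push Not at hinj
    obtain ⟨u, hu, hu0, hune⟩ := hinj
    refine ⟨g u, hgE u, ?_, ?_⟩
    · intro h0
      exact hune (hg (by rw [h0, map_zero]))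
    · have h4 : T (g u) = 0 := hu0
      rw [h4, norm_zero]
      apply mul_pos hε
      rw [norm_pos_iff]
      intro h0
      exact hune (hg (by rw [h0, map_zero]))

end Pool.Agent.MP_19e277_an
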