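import Pool.Agent.Lib.MP_19e277_an.Oper

open scoped ENNReal NNReal
open Filter Topology

namespace Pool.Agent.MP_19e277_an

universe u v w

variable {𝕜 : Type u} [RCLike 𝕜] {p : ℝ≥0∞}

lemma one_lt_toReal (h1 : 1 < p) (hp : p ≠ ∞) : 1 < p.toReal := by
  have h := (ENNReal.toReal_lt_toReal ENNReal.one_ne_top hp).2 h1
  simpa using h

lemma tendsto_prime {k : ℕ} (g : Fns k ≃ ℕ) :
    Tendsto (fun n => ((g.symm n).1 : ℕ)) atTop atTop := by
  have h1 : Tendsto (fun n => g.symm n) cofinite cofinite := g.symm.injective.tendsto_cofinite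
  have h2 : Tendsto (fun q : Nat.Primes => (q : ℕ)) cofinite cofinite :=
    Nat.Primes.coe_nat_injective.tendsto_cofinite
  have h3 := h2.comp (tendsto_fst.comp h1)
  rwa [Nat.cofinite_eq_atTop] at h3

lemma fss_opT [Fact (1 ≤ p)] (h1 : 1 < p) (hp : p ≠ ∞) (e : Pts ≃ ℕ) {k : ℕ} (g : Fns k ≃ ℕ) :
    IsFinitelyStrictlySingular (opT (𝕜 := 𝕜) hp e g) := by
  classical
  have hP1 : 1 < p.toReal := one_lt_toReal h1 hp
  have hP0 : 0 < p.toReal := by linarith
  apply fss_criterion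
  intro ε hε
  obtain ⟨N, hN⟩ := exists_nat_gt ((2 / ε) ^ p.toReal)
  have hlim : Tendsto (fun q : ℕ => (((N : ℝ) * k) / q) ^ (p.toReal - 1)) atTop (𝓝 0) := by
    have h2 : Tendsto (fun q : ℕ => ((N : ℝ) * k) / q) atTop (𝓝 0) :=
      tendsto_const_div_atTop_nhds_zero_nat _
    have h3 := h2.rpow_const (p := p.toReal - 1) (Or.inr (by linarith))
    rwa [Real.zero_rpow (by linarith)] at h3
  have hε2 : 0 < (ε / 2) ^ p.toReal := by positivity
  obtain ⟨Q0, hQ0⟩ := (hlim.eventually (gt_mem_nhds hε2)).exists_forall_of_atTop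
  obtain ⟨i0, hi0⟩ := ((tendsto_prime g).eventually_ge_atTop Q0).exists_forall_of_atTop
  refine ⟨N, i0, fun F hF hFi x hx => ?_⟩
  by_contra hcon
  push Not at hcon
  have hxn : ‖x‖ ≤ 1 / ε := by
    rw [le_div_iff₀ hε]; linarith
  let A : ℕ → Finset Pts := fun i => gr (g.symm i)
  let U : ℕ → Finset Pts := fun i => (F.erase i).biUnion (fun i' => A i ∩ A i')
  have hgood : ∀ i ∈ F, (1 / 2 : ℝ) ^ p.toReal ≤ ∑ ω ∈ A i \ U i, ‖x.val (e ω)‖ ^ p.toReal := by
    intro i hi
    have hq : 0 < ((g.symm i).1 : ℕ) := (g.symm i).1.2.pos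
    have hq0 : (0 : ℝ) < ((g.symm i).1 : ℕ) := by exact_mod_cast hq
    have hUsub : U i ⊆ A i := by
      intro ω hω
      obtain ⟨i', _, h⟩ := Finset.mem_biUnion.1 hω
      exact (Finset.mem_inter.1 h).1
    have hUcard : ((U i).card : ℝ) ≤ N * k := by
      have h3 : (U i).card ≤ (F.erase i).card * k := by
        apply Finset.card_biUnion_le_card_mul
        intro i' hi'
        apply card_gr_inter
        intro h
        exact (Finset.mem_erase.1 hi').1 (g.symm.injective h).symm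
      have h4 : (F.erase i).card ≤ N := by
        rw [← hF]; exact Finset.card_erase_le
      have h5 : (U i).card ≤ N * k := h3.trans (Nat.mul_le_mul_right k h4)
      exact_mod_cast h5
    -- the bad part
    have hbad : (((g.symm i).1 : ℕ) : ℝ) ^ (1 / p.toReal - 1) * ∑ ω ∈ U i, ‖x.val (e ω)‖ ≤ 1 / 2 := by
      have h3 := holder_part hp e _ hq x (U i)
      have h4 : (((U i).card : ℝ) / ((g.symm i).1 : ℕ)) ^ (p.toReal - 1) ≤ (ε / 2) ^ p.toReal := by
        refine le_trans ?_ (hQ0 _ (hi0 i (hFi i hi))).le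
        apply Real.rpow_le_rpow (by positivity) _ (by linarith)
        gcongr
      have h5 : ∑ ω ∈ U i, ‖x.val (e ω)‖ ^ p.toReal ≤ (1 / ε) ^ p.toReal :=
        (sum_pts_le hp e x (U i)).trans (Real.rpow_le_rpow (norm_nonneg _) hxn hP0.le)
      have h6 : ((((g.symm i).1 : ℕ) : ℝ) ^ (1 / p.toReal - 1) * ∑ ω ∈ U i, ‖x.val (e ω)‖) ^ p.toReal
          ≤ (1 / 2 : ℝ) ^ p.toReal := by
        refine h3.trans ?_
        calc (((U i).card : ℝ) / ((g.symm i).1 : ℕ)) ^ (p.toReal - 1) *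
              ∑ ω ∈ U i, ‖x.val (e ω)‖ ^ p.toReal
            ≤ (ε / 2) ^ p.toReal * (1 / ε) ^ p.toReal := by
              apply mul_le_mul h4 h5 (Finset.sum_nonneg fun _ _ => by positivity) hε2.le
          _ = (1 / 2 : ℝ) ^ p.toReal := by
              rw [← Real.mul_rpow (by positivity) (by positivity)]
              congr 1
              field_simp
      exact (Real.rpow_le_rpow_iff (by positivity) (by norm_num) hP0).1 h6
    have h3 : 1 ≤ (((g.symm i).1 : ℕ) : ℝ) ^ (1 / p.toReal - 1) * ∑ ω ∈ A i, ‖x.val (e ω)‖ := by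
      have h4 := norm_row_le e (g.symm i) x
      rw [← opT_val hp e g x i, hx i hi] at h4
      exact h4
    have h4 : ∑ ω ∈ A i \ U i, ‖x.val (e ω)‖ + ∑ ω ∈ U i, ‖x.val (e ω)‖ =
        ∑ ω ∈ A i, ‖x.val (e ω)‖ := Finset.sum_sdiff hUsub
    have h5 : 1 / 2 ≤ (((g.symm i).1 : ℕ) : ℝ) ^ (1 / p.toReal - 1) *
        ∑ ω ∈ A i \ U i, ‖x.val (e ω)‖ := by
      rw [← h4, mul_add] at h3
      linarith
    have h6 := holder_part hp e _ hq x (A i \ U i)
    have h7 : (((A i \ U i).card : ℝ) / ((g.symm i).1 : ℕ)) ^ (p.toReal - 1) ≤ 1 := by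
      apply Real.rpow_le_one (by positivity) _ (by linarith)
      rw [div_le_one hq0]
      have h8 : (A i \ U i).card ≤ ((g.symm i).1 : ℕ) := by
        rw [← card_gr (g.symm i)]
        exact Finset.card_le_card Finset.sdiff_subset
      exact_mod_cast h8
    refine (Real.rpow_le_rpow (by norm_num) h5 hP0.le).trans (h6.trans ?_)
    exact mul_le_of_le_one_left (Finset.sum_nonneg fun _ _ => by positivity) h7
  have hdisj : Set.PairwiseDisjoint (F : Set ℕ) (fun i => A i \ U i) := by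
    intro i hi i' hi' hne
    rw [Function.onFun, Finset.disjoint_left]
    intro ω h3 h4
    rw [Finset.mem_sdiff] at h3 h4
    apply h3.2
    rw [Finset.mem_biUnion]
    exact ⟨i', Finset.mem_erase.2 ⟨hne.symm, hi'⟩, Finset.mem_inter.2 ⟨h3.1, h4.1⟩⟩
  have hsum : ∑ i ∈ F, ∑ ω ∈ A i \ U i, ‖x.val (e ω)‖ ^ p.toReal ≤ ‖x‖ ^ p.toReal := by
    rw [← Finset.sum_biUnion hdisj]
    exact sum_pts_le hp e x _
  have h3 : (N : ℝ) * (1 / 2 : ℝ) ^ p.toReal ≤ (1 / ε) ^ p.toReal := by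
    rw [← hF, ← nsmul_eq_mul, ← Finset.sum_const]
    refine (Finset.sum_le_sum hgood).trans (hsum.trans ?_)
    exact Real.rpow_le_rpow (norm_nonneg _) hxn hP0.le
  have h4 : (2 / ε) ^ p.toReal * (1 / 2 : ℝ) ^ p.toReal = (1 / ε) ^ p.toReal := by
    rw [← Real.mul_rpow (by positivity) (by positivity)]
    congr 1
    field_simp
  rw [← h4] at h3
  have h5 := le_of_mul_le_mul_right h3 (by positivity)
  linarith

end Pool.Agent.MP_19e277_an
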