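import Pool.Agent.Lib.MP_19e277_an.Extract

open scoped ENNReal NNReal
open Filter Topology

namespace Pool.Agent.MP_19e277_an

universe u v w

variable {𝕜 : Type u} [RCLike 𝕜] {p : ℝ≥0∞}

lemma serve_bv [Fact (1 ≤ p)] (hp : p ≠ ∞) (e : Pts ≃ ℕ) {k : ℕ} (g : Fns k ≃ ℕ) {m : ℕ}
    (B : Fin m → EllP 𝕜 p →L[𝕜] SumL2 𝕜 p) {c : ℝ}
    (hBc : ∀ x, ‖x‖ ≤ 1 → 1 ≤ ‖opT hp e g x‖ → ∃ l n, c ≤ ‖block (B l x) n‖)
    (q : Nat.Primes) (f : Fin k → ZMod (q : ℕ)) :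
    ∃ i : Fin m × ℕ, c * ((q : ℕ) : ℝ) ^ (1 / p.toReal) ≤ ‖∑ a, bv e B q i (a, pol f a)‖ := by
  have hq0 : (0 : ℝ) < (q : ℕ) := by exact_mod_cast q.2.pos
  have h1 : 1 ≤ ‖opT hp e g (tv (p := p) 𝕜 e q f)‖ := by
    have h2 := CZero.norm_val_le (opT hp e g (tv (p := p) 𝕜 e q f)) (g ⟨q, f⟩)
    rw [opT_val, Equiv.symm_apply_apply, row_tv hp, norm_one] at h2
    exact h2
  obtain ⟨l, n, hln⟩ := hBc _ (norm_tv hp e q f).le h1
  refine ⟨(l, n), ?_⟩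
  have h2 : block (B l (tv (p := p) 𝕜 e q f)) n =
      ((((q : ℕ) : ℝ) ^ (-(1 / p.toReal)) : ℝ) : 𝕜) • ∑ a, bv e B q (l, n) (a, pol f a) := by
    refine (block_vec e B q (l, n) _).trans ?_
    rw [Fintype.sum_prod_type, Finset.smul_sum]
    apply Finset.sum_congr rfl
    intro a _
    rw [Finset.sum_eq_single (pol f a)]
    · simp only [if_true]
    · intro b _ hb
      simp only
      rw [if_neg (fun h => hb h.symm), zero_smul]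
    · intro h; exact absurd (Finset.mem_univ _) h
  rw [h2, norm_smul, RCLike.norm_ofReal, abs_of_pos (by positivity), Real.rpow_neg hq0.le] at hln
  have h3 : (0 : ℝ) < ((q : ℕ) : ℝ) ^ (1 / p.toReal) := by positivity
  rw [inv_mul_eq_div, le_div_iff₀ h3] at hln
  exact hln

lemma small_contra {P c β : ℝ} (h1 : 1 < P) (h2 : P < 2) (hc : 0 < c) (hβ : 0 ≤ β) :
    ∃ Q : ℕ, ∀ q : ℕ, Q ≤ q → 0 < q →
      q * ((q : ℝ) ^ 2 * β ^ (2 / P)) + (β * (q : ℝ) ^ 2) ^ (2 / P) <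
        (q : ℝ) ^ 2 * (c * (q : ℝ) ^ (1 / P)) ^ 2 := by
  have hP0 : 0 < P := by linarith
  have e1 : 0 < 2 / P - 1 := by
    rw [sub_pos, lt_div_iff₀ hP0]; linarith
  have e2 : 0 < 2 - 2 / P := by
    rw [sub_pos, div_lt_iff₀ hP0]; linarith
  have t1 : Tendsto (fun q : ℕ => (q : ℝ) ^ (-(2 / P - 1))) atTop (𝓝 0) :=
    (tendsto_rpow_neg_atTop e1).comp tendsto_natCast_atTop_atTop
  have t2 : Tendsto (fun q : ℕ => (q : ℝ) ^ (-(2 - 2 / P))) atTop (𝓝 0) :=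
    (tendsto_rpow_neg_atTop e2).comp tendsto_natCast_atTop_atTop
  have t3 : Tendsto (fun q : ℕ => β ^ (2 / P) * ((q : ℝ) ^ (-(2 / P - 1)) +
      (q : ℝ) ^ (-(2 - 2 / P)))) atTop (𝓝 0) := by
    have := (t1.add t2).const_mul (β ^ (2 / P))
    simpa using this
  obtain ⟨Q, hQ⟩ := (t3.eventually (gt_mem_nhds (show (0 : ℝ) < c ^ 2 by positivity))).exists_forall_of_atTop
  refine ⟨Q, fun q hq hq0' => ?_⟩
  have hq0 : (0 : ℝ) < q := by exact_mod_cast hq0'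
  have h3 := hQ q hq
  have h4 : 0 < (q : ℝ) ^ 2 * (q : ℝ) ^ (2 / P) := by positivity
  have h5 := mul_lt_mul_of_pos_left h3 h4
  have h6 : (q : ℝ) ^ 2 * (q : ℝ) ^ (2 / P) * (β ^ (2 / P) * ((q : ℝ) ^ (-(2 / P - 1)) +
      (q : ℝ) ^ (-(2 - 2 / P)))) = q * ((q : ℝ) ^ 2 * β ^ (2 / P)) + (β * (q : ℝ) ^ 2) ^ (2 / P) := by
    have e3 : (q : ℝ) ^ (2 / P) * (q : ℝ) ^ (-(2 / P - 1)) = q := by
      rw [← Real.rpow_add hq0]
      have : 2 / P + -(2 / P - 1) = 1 := by ring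
      rw [this, Real.rpow_one]
    have e4 : (q : ℝ) ^ 2 * (q : ℝ) ^ (2 / P) * (q : ℝ) ^ (-(2 - 2 / P)) = ((q : ℝ) ^ 2) ^ (2 / P) := by
      rw [← Real.rpow_natCast, ← Real.rpow_add hq0, ← Real.rpow_add hq0, ← Real.rpow_mul hq0.le]
      congr 1
      push_cast
      ring
    rw [Real.mul_rpow hβ (by positivity), ← e4]
    linear_combination ((q : ℝ) ^ 2 * β ^ (2 / P)) * e3
  have h7 : (q : ℝ) ^ 2 * (q : ℝ) ^ (2 / P) * c ^ 2 = (q : ℝ) ^ 2 * (c * (q : ℝ) ^ (1 / P)) ^ 2 := by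
    have e5 : ((q : ℝ) ^ (1 / P)) ^ 2 = (q : ℝ) ^ (2 / P) := by
      rw [← Real.rpow_natCast, ← Real.rpow_mul hq0.le]
      congr 1
      push_cast
      ring
    rw [mul_pow, e5]
    ring
  rw [h6, h7] at h5
  exact h5

lemma big_contra {P c β : ℝ} {k s : ℕ} (hk : 1 + P / 2 < k) (hc : 0 < c) :
    ∃ Q : ℕ, ∀ q : ℕ, Q ≤ q → 0 < q →
      s * (β * (q : ℝ) ^ 2) < (q : ℝ) ^ k * (c ^ P * (q : ℝ) ^ (1 - P / 2)) := by
  have e1 : 0 < (k : ℝ) - 1 - P / 2 := by linarith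
  have t1 : Tendsto (fun q : ℕ => (q : ℝ) ^ ((k : ℝ) - 1 - P / 2)) atTop atTop :=
    (tendsto_rpow_atTop e1).comp tendsto_natCast_atTop_atTop
  obtain ⟨Q, hQ⟩ := (t1.eventually_gt_atTop (s * β / c ^ P)).exists_forall_of_atTop
  refine ⟨Q, fun q hq hq0' => ?_⟩
  have hq0 : (0 : ℝ) < q := by exact_mod_cast hq0'
  have h3 := hQ q hq
  have h4 : 0 < (q : ℝ) ^ 2 * c ^ P := by positivity
  have h5 := mul_lt_mul_of_pos_left h3 h4
  have h6 : (q : ℝ) ^ 2 * c ^ P * (s * β / c ^ P) = s * (β * (q : ℝ) ^ 2) := by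
    have : c ^ P ≠ 0 := (Real.rpow_pos_of_pos hc P).ne'
    field_simp
  have h7 : (q : ℝ) ^ 2 * c ^ P * (q : ℝ) ^ ((k : ℝ) - 1 - P / 2) =
      (q : ℝ) ^ k * (c ^ P * (q : ℝ) ^ (1 - P / 2)) := by
    have e2 : (q : ℝ) ^ 2 * (q : ℝ) ^ ((k : ℝ) - 1 - P / 2) = (q : ℝ) ^ k * (q : ℝ) ^ (1 - P / 2) := by
      rw [← Real.rpow_natCast (q : ℝ) k, ← Real.rpow_natCast (q : ℝ) 2, ← Real.rpow_add hq0,
        ← Real.rpow_add hq0]
      congr 1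
      push_cast
      ring
    linear_combination (c ^ P) * e2
  rw [h6, h7] at h5
  exact h5

theorem not_subset (h1 : 1 < p) (hp : p ≠ ∞) [Fact (1 ≤ p)] (h2 : p ≠ 2) (D : KChoice 𝕜) :
    ∃ T : EllP 𝕜 p →L[𝕜] CZero 𝕜 ℕ, IsFinitelyStrictlySingular T ∧
      T ∉ closedIdeal (diagOp hp D) := by
  have hP1 : 1 < p.toReal := one_lt_toReal h1 hp
  have hP0 : 0 < p.toReal := by linarith
  have hP2 : p.toReal ≠ 2 := by
    intro h
    apply h2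
    rw [← ENNReal.ofReal_toReal hp, h]
    norm_num
  obtain ⟨e⟩ := exists_equiv_pts
  rcases lt_or_gt_of_ne hP2 with hlt | hgt
  · obtain ⟨g⟩ := exists_equiv_fns 2
    refine ⟨opT hp e g, fss_opT h1 hp e g, fun hmem => ?_⟩
    obtain ⟨m, B, c, hc, hBc⟩ := extract hp D _ hmem
    have hβ : 0 ≤ ∑ l, ‖B l‖ ^ p.toReal := Finset.sum_nonneg fun l _ => by positivity
    obtain ⟨Q, hQ⟩ := small_contra hP1 hlt hc hβ
    obtain ⟨q, hq⟩ : ∃ q : Nat.Primes, Q ≤ (q : ℕ) := by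
      obtain ⟨q, hq, hqp⟩ := Nat.exists_infinite_primes Q
      exact ⟨⟨q, hqp⟩, hq⟩
    have h3 := small_p_bound (𝕜 := 𝕜) hP0 hlt.le hc (bv e B q)
      (fun I y => bv_bound hp e B q I y)
      (fun f => serve_bv hp e g B hBc q f)
    have h4 := hQ q hq q.2.pos
    exact absurd h3 (not_le.2 h4)
  · obtain ⟨k, hk⟩ := exists_nat_gt (1 + p.toReal / 2)
    obtain ⟨g⟩ := exists_equiv_fns k
    refine ⟨opT hp e g, fss_opT h1 hp e g, fun hmem => ?_⟩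
    obtain ⟨m, B, c, hc, hBc⟩ := extract hp D _ hmem
    have hβ : 0 ≤ ∑ l, ‖B l‖ ^ p.toReal := Finset.sum_nonneg fun l _ => by positivity
    set β := ∑ l, ‖B l‖ ^ p.toReal with hβdef
    -- choose s
    have e1 : 0 < p.toReal / 2 - 1 := by linarith
    have t1 : Tendsto (fun s : ℕ => (s : ℝ) ^ (p.toReal / 2 - 1)) atTop atTop :=
      (tendsto_rpow_atTop e1).comp tendsto_natCast_atTop_atTop
    obtain ⟨s, hs1, hs2⟩ := ((t1.eventually_gt_atTop (2 * β / c ^ p.toReal)).and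
      (eventually_gt_atTop 0)).exists
    have hs' : 2 * β < (s : ℝ) ^ (p.toReal / 2 - 1) * c ^ p.toReal := by
      rwa [div_lt_iff₀ (by positivity)] at hs1
    obtain ⟨Q, hQ⟩ := big_contra (P := p.toReal) (c := c) (β := β) (k := k) (s := s) hk hc
    obtain ⟨q, hq⟩ : ∃ q : Nat.Primes, max Q ⌈(s : ℝ) ^ (p.toReal + 1) * k⌉₊ ≤ (q : ℕ) := by
      obtain ⟨q, hq, hqp⟩ := Nat.exists_infinite_primes (max Q ⌈(s : ℝ) ^ (p.toReal + 1) * k⌉₊)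
      exact ⟨⟨q, hqp⟩, hq⟩
    have hq2 : (s : ℝ) ^ (p.toReal + 1) * k ≤ (q : ℕ) :=
      (Nat.le_ceil _).trans (by exact_mod_cast (le_max_right _ _).trans hq)
    have h3 := big_p_bound (𝕜 := 𝕜) hgt hc hβ (bv e B q)
      (fun I y => bv_bound hp e B q I y)
      (fun f => serve_bv hp e g B hBc q f) hs2 hs' hq2
    have h4 := hQ q ((le_max_left _ _).trans hq) q.2.pos
    exact absurd h3 (not_le.2 h4)

end Pool.Agent.MP_19e277_an
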