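import Pool.Agent.Lib.MP_19e277_an.Coords

open scoped ENNReal NNReal
open Filter Topology

namespace Pool.Agent.MP_19e277_an

universe u v w

variable {𝕜 : Type u} [RCLike 𝕜] {p : ℝ≥0∞}

/-- The row functional of the operator: the normalised sum of the coordinates over a graph. -/
noncomputable def row [Fact (1 ≤ p)] (e : Pts ≃ ℕ) {k : ℕ} (j : Fns k) : EllP 𝕜 p →ₗ[𝕜] 𝕜 where
  toFun x := (((j.1 : ℕ) : ℝ) ^ (1 / p.toReal - 1) : ℝ) * ∑ ω ∈ gr j, x.val (e ω)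
  map_add' x y := by
    simp only [EllP.val_add, Finset.sum_add_distrib, mul_add]
  map_smul' c x := by
    simp only [EllP.val_smul, ← Finset.mul_sum, RingHom.id_apply, smul_eq_mul]
    ring

/-- Hölder's inequality for the partial sums of a row. -/
lemma holder_part [Fact (1 ≤ p)] (hp : p ≠ ∞) (e : Pts ≃ ℕ) (q : ℕ) (hq : 0 < q)
    (x : EllP 𝕜 p) (S : Finset Pts) :
    ((q : ℝ) ^ (1 / p.toReal - 1) * ∑ ω ∈ S, ‖x.val (e ω)‖) ^ p.toReal ≤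
      ((S.card : ℝ) / q) ^ (p.toReal - 1) * ∑ ω ∈ S, ‖x.val (e ω)‖ ^ p.toReal := by
  have hp0 := toReal_pos' hp
  have hp1 : 1 ≤ p.toReal := by
    have h := ENNReal.toReal_mono hp (Fact.out : (1 : ℝ≥0∞) ≤ p)
    simpa using h
  have hq0 : (0 : ℝ) < q := by exact_mod_cast hq
  have h1 := Real.rpow_sum_le_const_mul_sum_rpow_of_nonneg (s := S)
    (f := fun ω => ‖x.val (e ω)‖) hp1 (fun ω _ => norm_nonneg _)
  rw [Real.mul_rpow (by positivity) (Finset.sum_nonneg fun _ _ => norm_nonneg _),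
    ← Real.rpow_mul hq0.le]
  have h2 : (1 / p.toReal - 1) * p.toReal = -(p.toReal - 1) := by
    field_simp; ring
  rw [h2, Real.rpow_neg hq0.le, Real.div_rpow (Nat.cast_nonneg _) hq0.le]
  calc ((q : ℝ) ^ (p.toReal - 1))⁻¹ * (∑ ω ∈ S, ‖x.val (e ω)‖) ^ p.toReal
      ≤ ((q : ℝ) ^ (p.toReal - 1))⁻¹ * ((S.card : ℝ) ^ (p.toReal - 1) *
        ∑ ω ∈ S, ‖x.val (e ω)‖ ^ p.toReal) := by gcongr
    _ = (S.card : ℝ) ^ (p.toReal - 1) / (q : ℝ) ^ (p.toReal - 1) *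
        ∑ ω ∈ S, ‖x.val (e ω)‖ ^ p.toReal := by
        rw [div_eq_mul_inv]; ring

lemma norm_row_le [Fact (1 ≤ p)] (e : Pts ≃ ℕ) {k : ℕ} (j : Fns k) (x : EllP 𝕜 p) :
    ‖row e j x‖ ≤ ((j.1 : ℕ) : ℝ) ^ (1 / p.toReal - 1) * ∑ ω ∈ gr j, ‖x.val (e ω)‖ := by
  change ‖((((j.1 : ℕ) : ℝ) ^ (1 / p.toReal - 1) : ℝ) : 𝕜) * ∑ ω ∈ gr j, x.val (e ω)‖ ≤ _
  rw [norm_mul, RCLike.norm_ofReal, abs_of_nonneg (by positivity)]
  exact mul_le_mul_of_nonneg_left (norm_sum_le _ _) (by positivity)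

lemma norm_row_rpow_le [Fact (1 ≤ p)] (hp : p ≠ ∞) (e : Pts ≃ ℕ) {k : ℕ} (j : Fns k)
    (x : EllP 𝕜 p) :
    ‖row e j x‖ ^ p.toReal ≤ ∑ ω ∈ gr j, ‖x.val (e ω)‖ ^ p.toReal := by
  have hq : 0 < (j.1 : ℕ) := j.1.2.pos
  have h1 := holder_part hp e (j.1 : ℕ) hq x (gr j)
  rw [card_gr, div_self (by exact_mod_cast hq.ne'), Real.one_rpow, one_mul] at h1
  exact (Real.rpow_le_rpow (norm_nonneg _) (norm_row_le e j x) (toReal_pos' hp).le).trans h1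

lemma sum_pts_le [Fact (1 ≤ p)] (hp : p ≠ ∞) (e : Pts ≃ ℕ) (x : EllP 𝕜 p) (S : Finset Pts) :
    ∑ ω ∈ S, ‖x.val (e ω)‖ ^ p.toReal ≤ ‖x‖ ^ p.toReal := by
  have h := EllP.sum_le hp x (S.map e.toEmbedding)
  rwa [Finset.sum_map] at h

lemma norm_row_le_norm [Fact (1 ≤ p)] (hp : p ≠ ∞) (e : Pts ≃ ℕ) {k : ℕ} (j : Fns k)
    (x : EllP 𝕜 p) : ‖row e j x‖ ≤ ‖x‖ := by
  have h := (norm_row_rpow_le hp e j x).trans (sum_pts_le hp e x (gr j))
  exact (Real.rpow_le_rpow_iff (norm_nonneg _) (norm_nonneg _) (toReal_pos' hp)).1 h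

lemma tendsto_fst {k : ℕ} : Tendsto (fun j : Fns k => j.1) cofinite cofinite := by
  apply Tendsto.cofinite_of_finite_preimage_singleton
  intro q
  apply Set.Finite.subset (Set.finite_range (fun c : Fin k → ZMod (q : ℕ) => (⟨q, c⟩ : Fns k)))
  rintro ⟨q', c⟩ h
  have : q' = q := h
  subst this
  exact ⟨c, rfl⟩

lemma tendsto_row [Fact (1 ≤ p)] (hp : p ≠ ∞) (e : Pts ≃ ℕ) {k : ℕ} (x : EllP 𝕜 p) :
    Tendsto (fun j : Fns k => row e j x) cofinite (𝓝 0) := by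
  have hp0 := toReal_pos' hp
  let t : Nat.Primes → ℝ := fun q => ∑ ω : ZMod (q : ℕ) × ZMod (q : ℕ),
    ‖x.val (e ⟨q, ω⟩)‖ ^ p.toReal
  have ht : Tendsto t cofinite (𝓝 0) := by
    have h1 : Summable fun ω : Pts => ‖x.val (e ω)‖ ^ p.toReal :=
      (EllP.summable hp x).comp_injective e.injective
    have h2 := h1.sigma
    simp only [tsum_fintype] at h2
    exact h2.tendsto_cofinite_zero
  have h3 : ∀ j : Fns k, ‖row e j x‖ ^ p.toReal ≤ t j.1 := by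
    intro j
    refine (norm_row_rpow_le hp e j x).trans ?_
    rw [gr, Finset.sum_map]
    change ∑ a : ZMod (j.1 : ℕ), ‖x.val (e ⟨j.1, (a, pol j.2 a)⟩)‖ ^ p.toReal ≤ _
    simp only [t]
    rw [Fintype.sum_prod_type]
    apply Finset.sum_le_sum
    intro a _
    exact Finset.single_le_sum (f := fun b => ‖x.val (e ⟨j.1, (a, b)⟩)‖ ^ p.toReal)
      (fun b _ => by positivity) (Finset.mem_univ (pol j.2 a))
  have h4 : Tendsto (fun j : Fns k => t j.1) cofinite (𝓝 0) := ht.comp tendsto_fst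
  have h5 : Tendsto (fun j : Fns k => ‖row e j x‖ ^ p.toReal) cofinite (𝓝 0) :=
    squeeze_zero (fun j => by positivity) h3 h4
  have h6 := h5.rpow_const (p := 1 / p.toReal) (Or.inr (by positivity))
  rw [Real.zero_rpow (by positivity)] at h6
  rw [tendsto_zero_iff_norm_tendsto_zero]
  refine h6.congr (fun j => ?_)
  rw [← Real.rpow_mul (norm_nonneg _), mul_one_div_cancel hp0.ne', Real.rpow_one]

/-- The operator of the theorem. -/
noncomputable def opT [Fact (1 ≤ p)] (hp : p ≠ ∞) (e : Pts ≃ ℕ) {k : ℕ} (g : Fns k ≃ ℕ) :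
    EllP 𝕜 p →L[𝕜] CZero 𝕜 ℕ :=
  toCZero (fun n => row e (g.symm n)) 1 zero_le_one
    (fun x n => by rw [one_mul]; exact norm_row_le_norm hp e _ x)
    (fun x => (tendsto_row hp e x).comp g.symm.injective.tendsto_cofinite)

lemma opT_val [Fact (1 ≤ p)] (hp : p ≠ ∞) (e : Pts ≃ ℕ) {k : ℕ} (g : Fns k ≃ ℕ) (x : EllP 𝕜 p)
    (n : ℕ) : (opT hp e g x).val n = row e (g.symm n) x := rfl

end Pool.Agent.MP_19e277_an
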